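import Pool.Agent.Lib.MP_5c0be7_lc.C.Easy
import Pool.Agent.Lib.MP_5c0be7_lc.F.StTree
import Pool.Agent.Lib.MP_5c0be7_lc.F.TreeOrd
import Pool.Agent.Lib.MP_5c0be7_lc.P.St

/-!
Project KM, block F7: the maps along the branches of a tree are cofinal and close.
-/

set_option autoImplicit false

namespace Pool.Agent.KM.CU

open Ordinal Tr
open scoped Classical

universe u

variable {T : IT.{u}} {l i j k c : Ordinal.{u}}

theorem mp_id (hT : T.IsTr l) (hi : i ≤ l) : ∀ x ≤ T.b i, T.mp i i x = x := by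
  rcases le_or_gt i T.n with h | h
  · exact hT.phal.id i h
  · by_cases h1 : Suc i
    · obtain ⟨k, rfl⟩ := h1
      exact (hT.step k (KE.le1 h) (IT.s_lt hi)).id
    · exact (hT.lim i h hi (limit_of_not_suc h1 (ne_of_gt (lt_of_le_of_lt zero_le h)))).id

theorem act_dom {E : Seq.{u}} {v t : Ordinal.{u}} {e : Ordinal.{u} → Ordinal.{u}}
    (h : Act E v k t e) : e k < v := h.weak.maps k h.lt

theorem im_fix (hs : T.Step k) : ∀ x < T.ka k, T.im k x = x := fun x hx =>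
  (hs.ext x (hx.trans hs.use.act.lt)).trans (hs.use.act.fix x hx)

theorem ka_lt_la (hs : T.Step k) : T.ka k < T.la k := hs.la ▸ hs.use.act.move

theorem step_strong (hs : T.Step k) :
    Strong (T.E (T.pr k)) (T.st k + 1) (T.E (k + 1)) (T.b (k + 1) + 1) (T.im k) :=
  hs.b ▸ hs.ult.toStrong

theorem st_eq (hs : T.Step k) (hd : ¬ T.Drop k) : T.st k = T.b (T.pr k) :=
  hs.pred.st_le.antisymm (not_lt.1 hd)

variable [TreeSt.{u}]

/-- Every tree of a limit model comes from an earlier model. -/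
theorem lim_tree (hT : T.IsTr l) (hc : c ≤ l) (hL : T.Lim c) (hi : i < c) (hn : T.ND i c)
    {x : Tr.{u}} (hx : In (T.b c + 1) x) : ∃ m < c, i ≤ m ∧ T.ND m c ∧
      ∃ y, In (T.b m + 1) y ∧ y.map (T.mp m c) = x := by
  have up : ∀ m m', m ≤ m' → m' < c → T.ND m c → T.ND m' c → ∀ y, In (T.b m + 1) y →
      In (T.b m' + 1) (y.map (T.mp m m')) ∧ (y.map (T.mp m m')).map (T.mp m' c) = y.map (T.mp m c) :=
    fun m m' h1 h2 h3 h4 y hy =>
      ⟨KE.w_in (TreeSt.strong hT (h2.le.trans hc) (h3.cut h1 h4.1)).toWeak hy, by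
        rw [map_map]
        exact map_congr fun a ha => hL.comm h1 h2 h3 h4 a (KE.le1 (hy a ha))⟩
  have two : ∀ m m', m < c → m' < c → T.ND m c → T.ND m' c → T.ND (max m m') c := fun m m' _ _ h h' =>
    (le_total m m').elim (fun e => by rwa [max_eq_right e]) fun e => by rwa [max_eq_left e]
  induction x with
  | nil => exact ⟨i, hi, le_rfl, hn, .nil, in_nil _, rfl⟩
  | leaf a =>
    obtain ⟨m, h1, h2, y, h3, h4⟩ := hL.onto (KE.le1 ((in_leaf _ _).1 hx))
    have h5 := two i m hi h1 hn h2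
    have h6 := up m _ (le_max_right i m) (max_lt hi h1) h2 h5 (leaf y) (by simpa using KE.lt1 h3)
    exact ⟨_, max_lt hi h1, le_max_left _ _, h5, _, h6.1, h6.2.trans (by rw [map_leaf, h4])⟩
  | node x1 x2 ih1 ih2 =>
    obtain ⟨m1, a1, a2, a3, y1, a4, rfl⟩ := ih1 hx.fst
    obtain ⟨m2, b1, -, b3, y2, b4, rfl⟩ := ih2 hx.snd
    have h5 := two m1 m2 a1 b1 a3 b3
    have h6 := up m1 _ (le_max_left m1 m2) (max_lt a1 b1) a3 h5 y1 a4
    have h7 := up m2 _ (le_max_right m1 m2) (max_lt a1 b1) b3 h5 y2 b4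
    exact ⟨_, max_lt a1 b1, a2.trans (le_max_left _ _), h5, node _ _,
      (in_node _ _ _).2 ⟨h6.1, h7.1⟩, by rw [map_node, h6.2, h7.2]⟩

theorem seg_pp (hT : T.IsTr l) (hn : T.n ≤ k) (hk : k < l) :
    PP (T.E (T.pr k)) (T.st k + 1) (T.E l) (T.b l + 1) (T.ka k) := by
  intro A hA
  have hs := hT.step k hn hk
  have h1 := named_agree (AccSt.acc_card _ _ _ _ _ (TreeSt.card hT hk le_rfl) (ka_lt_la hs) hA)
    fun v hv => (TreeSt.agree hT hk le_rfl v hv).symm
  have h2 := AccSt.acc _ _ _ _ _ hs.use.act.next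
    (Named.mono' h1 (hs.la ▸ (act_dom hs.use.act).le))
  exact Named.mono' (named_agree h2 fun v hv =>
    ((TreeSt.pred_agree (hT.mono hn hk.le) hs.use hs.pred).1 v hv).symm)
    (hs.pred.ta_le.trans le_self_add)

theorem seg_fix (hT : T.IsTr l) (hn : T.n ≤ k) (hk : k < l) (h : T.ND (k + 1) l) :
    ∀ x < T.ka k, (T.mp (k + 1) l ∘ T.im k) x = x := fun x hx => by
  have hs := hT.step k hn hk
  rw [Function.comp, im_fix hs x hx]
  exact TreeSt.fix hT le_rfl h (lt_add_one k) x (hx.trans (ka_lt_la hs))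

theorem close_nd (hT : T.IsTr l) (H : ∀ d, T.n ≤ d → d < l → T.n ≤ T.pr d →
      Close (T.E (T.pr d)) (T.st d + 1) (T.E (d + 1)) (T.b (d + 1) + 1) (T.im d))
    (hi : T.n ≤ i) (hj : j ≤ l) (h : T.ND i j) :
    Close (T.E i) (T.b i + 1) (T.E j) (T.b j + 1) (T.mp i j) := by
  refine TreeSt.ind (fun j => Close (T.E i) (T.b i + 1) (T.E j) (T.b j + 1) (T.mp i j)) hT
    (close_congr close_id fun x hx => (mp_id hT (h.le.trans hj) x (KE.le1 hx)).symm)
    (fun k k1 k2 k3 k4 k5 k6 ih => ?_) (fun c c1 c2 c3 c4 c5 ih => ?_) j hj h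
  · have hs := hT.step k k1 k2
    have h1 := H k k1 k2 (hi.trans k5.le)
    rw [st_eq hs k6] at h1
    exact close_congr (close_comp ih h1) fun x hx => (hs.mp i k3 k4 x (KE.le1 hx)).symm
  · have hL := hT.lim c c2 c3 c1
    refine close_of (hL.strong c4 c5) fun x hx => ?_
    obtain ⟨m, m1, m2, m3, y, m4, m5⟩ := lim_tree hT c3 hL c4 c5 hx
    exact ⟨_, _, _, _, y, ih m m1 m2 m3, hL.strong m1 m3,
      fun z hz => hL.comm m2 m1 c5 m3 z (KE.le1 hz), m4, m5⟩

section Cof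

variable [UltFactSt.{u}]

omit [TreeSt.{u}] in
theorem step_cof (hs : T.Step k) :
    Cof (T.E (T.pr k)) (T.st k) (T.E (k + 1)) (T.b (k + 1)) (T.im k) :=
  hs.b ▸ UltFactSt.cof hs.ult

theorem br_cof (hT : T.IsTr l) (hj : j ≤ l) (h : T.ND i j) :
    Cof (T.E i) (T.b i) (T.E j) (T.b j) (T.mp i j) := by
  refine TreeSt.ind (fun j => Cof (T.E i) (T.b i) (T.E j) (T.b j) (T.mp i j)) hT
    (cof_congr cof_id fun x hx => (mp_id hT (h.le.trans hj) x hx).symm)
    (fun k k1 k2 k3 k4 k5 k6 ih => ?_) (fun c c1 c2 c3 c4 c5 ih => ?_) j hj h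
  · have hs := hT.step k k1 k2
    have h1 := step_cof hs
    rw [st_eq hs k6] at h1
    exact cof_congr (cof_comp ih h1) fun x hx => (hs.mp i k3 k4 x hx).symm
  · have hL := hT.lim c c2 c3 c1
    refine ⟨hL.strong c4 c5, fun y hy => ?_⟩
    obtain ⟨m, m1, m2, m3, w, m4, m5⟩ := lim_tree hT c3 hL c4 c5 (x := leaf y)
      (by simpa using KE.lt1 (hy.le.trans (rho_le _ _)))
    obtain ⟨a, rfl, rfl⟩ := map_eq_leaf.1 m5
    have ha : a < T.b m + 1 := by simpa using m4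
    have h2 := hL.strong m1 m3
    obtain ⟨x, h3, h4⟩ := (ih m m1 m2 m3).cof a ((lt_rho_map h2 (KE.le1 ha)).1 hy)
    have h5 := h3.le.trans (rho_le _ _)
    exact ⟨x, h3, hL.comm m2 m1 c5 m3 x h5 ▸
      (KE.w_le h2.toWeak ha ((ih m m1 m2 m3).maps x (KE.lt1 h5))).2 h4⟩

theorem seg_cof (hT : T.IsTr l) (hn : T.n ≤ k) (hk : k < l) (h : T.ND (k + 1) l) :
    Cof (T.E (T.pr k)) (T.st k) (T.E l) (T.b l) (T.mp (k + 1) l ∘ T.im k) :=
  cof_comp (step_cof (hT.step k hn hk)) (br_cof hT le_rfl h)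

theorem seg_core (hT : T.IsTr l) (hn : T.n ≤ k) (hk : k < l) (hd : T.Drop k) (h : T.ND (k + 1) l) :
    CoreMap (T.E (T.pr k)) (T.st k) (T.E l) (T.b l) (T.mp (k + 1) l ∘ T.im k) := by
  have hs := hT.step k hn hk
  have h1 := hs.pred.max hd
  exact ⟨seg_cof hT hn hk h, hs.ult.pm, (TreeSt.pm hT le_rfl).toPM0,
    (TreeSt.pm hT (hs.pred.le.trans hk.le)).ls _ (KE.s1lt hd),
    fun x hx => seg_fix hT hn hk h x (hx.trans_le h1), pp_mono (seg_pp hT hn hk) h1⟩

end Cof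

variable [KEvSt.{u}] [UltFactSt.{u}] [CloseUltSt.{u}] [DefActSt.{u}]

theorem step_close (hT : T.IsTr l) (hn : T.n ≤ k) (hk : k < l) (hp : T.n ≤ T.pr k) :
    Close (T.E (T.pr k)) (T.st k + 1) (T.E (k + 1)) (T.b (k + 1) + 1) (T.im k) := by
  induction k using WellFoundedLT.induction with
  | ind k ih =>
  have hs := hT.step k hn hk
  have hK := hT.mono hn hk.le
  have H : ∀ d, T.n ≤ d → d < k → T.n ≤ T.pr d →
      Close (T.E (T.pr d)) (T.st d + 1) (T.E (d + 1)) (T.b (d + 1) + 1) (T.im d) :=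
    fun d d1 d2 d3 => ih d d2 d1 (d2.trans hk) d3
  have hle := TreeSt.pred_le hK hs.use hs.pred
  have PB : ∀ m, T.pr k < m → T.Le m k →
      Pull (T.E (T.pr k)) (T.st k + 1) (T.E m) (T.b m + 1) (T.ta k) := by
    intro m
    induction m using WellFoundedLT.induction with
    | ind m ihm =>
    intro m1 m2
    by_cases h1 : Suc m
    · obtain ⟨d, rfl⟩ := h1
      have d1 : T.pr k ≤ d := KE.le1 m1
      have d2 : d < k := IT.s_lt m2.1
      have d3 := hp.trans d1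
      have hd := hK.step d d3 d2
      have d4 := hle.2 d d1 d2 d3
      have d5 := TreeSt.pred_ka hK hs.use hs.pred d3 d1 d2
      have d6 : T.ka d ≤ T.st d := hd.use.act.lt.le.trans hd.pred.ta_le
      have h2 := pull_mono (Close.pull (H d d3 d2 (hp.trans d4)) (d6.trans le_self_add)
        (im_fix hd)) d5.2
      rcases d4.eq_or_lt with d4 | d4
      · rw [← d4] at h2
        refine pull_trans (pull_lift (not_lt.1 fun h3 => ?_)) h2
        have h4 : T.st k + 1 ≤ T.st d := KE.le1 h3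
        have h5 := hs.pred.max ((IT.s_lt h4).trans_le (d4 ▸ hd.pred.st_le))
        have h6 := hd.ult.toStrong
        have h7 := KE.strong_rho h6 h4 (d5.1.le.trans d6)
        rw [im_fix hd _ d5.1, ← d4] at h7
        have h8 := TreeSt.pred_card hK hs.use hs.pred m1 m2.1 (T.im d (T.st k + 1))
          ((hs.pred.ta_le.trans le_self_add).trans (KE.w_self h6.toWeak (KE.lt1 h4)))
          (hd.b ▸ h6.maps _ (KE.lt1 h4))
        exact h5.not_gt (h7.1 (hs.use.act.lt.trans_le h8))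
      · have d7 := TreeSt.pred_le (hK.mono d3 d2.le) hd.use hd.pred
        exact pull_trans (ihm _ (KE.lt1 d7.1) d4 ((IT.pr_le_succ d3 d7).trans m2))
          (pull_trans (pull_lift (add_le_add_left hd.pred.st_le 1)) h2)
    · have c1 := limit_of_not_suc h1 (ne_of_gt (lt_of_le_of_lt zero_le m1))
      have c2 := hp.trans_lt m1
      obtain ⟨m0, a1, a2⟩ := (hK.lim m c2 m2.1 c1).ex
      obtain ⟨m3, a3, a4, a5⟩ := TreeSt.cof c2 c1
        (fun j j1 j2 => hK.mono j2 (j1.le.trans m2.1)) _ (max_lt m1 a1)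
      have a6 := a2.tail ((le_max_right _ _).trans a3.le) a5
      have a7 := (le_max_left _ _).trans_lt a3
      have a8 := (TreeSt.pred_agree hK hs.use hs.pred).2.2 (m1.trans_le m2.1)
      exact pull_trans (ihm m3 a4 a7 (a5.trans m2))
        (Close.pull (close_nd hK H (hp.trans a7.le) m2.1 a6)
          ((a8.trans (TreeSt.la_le hK (m1.trans_le m2.1) a7.le (a4.le.trans m2.1))).trans
            le_self_add)
          fun x hx => TreeSt.fix hK m2.1 a6 a7 x (hx.trans_le a8))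
  rw [hs.b]
  refine CloseUltSt.close_ult hs.ult (UltFactSt.cof hs.ult) ⟨hs.use.act.lt,
    hs.pred.ta_le.trans le_self_add, (TreeSt.pred_ext hK hs.use hs.pred).top, hs.pred.noproj⟩
    fun a ha => ?_
  rw [hs.ext _ hs.use.act.lt] at ha
  have h1 := DefActSt.def_act ((TreeSt.pm hK le_rfl).ls.mono (add_le_add_left hs.use.le 1))
    hs.use.act (ha.mono (act_dom hs.use.act).le)
  have h2 : Def1 (T.E (T.pr k)) (T.st k + 1) (T.ta k) fun n => Nm (T.E k) (n.map (T.e k)) a := by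
    rcases hs.pred.le.eq_or_lt with h3 | h3
    · rw [h3]
      exact Def1.lift h1 (add_le_add_left ((TreeSt.pred_st hK hs.use hs.pred).1 h3) 1)
    · exact PB k h3 IT.Le.refl _ le_rfl _ (Def1.lift h1 (add_le_add_left hs.use.le 1))
  refine Def1.congr' h2 fun n hn => ?_
  rw [KN.map_eq hs.ext hn]
  exact (KN.anm hs.agree (KE.w_in hs.use.act.weak hn)).symm

theorem br_close (hT : T.IsTr l) (hi : T.n ≤ i) (hj : j ≤ l) (h : T.ND i j) :
    Close (T.E i) (T.b i + 1) (T.E j) (T.b j + 1) (T.mp i j) :=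
  close_nd hT (fun _ => step_close hT) hi hj h

theorem seg_close (hT : T.IsTr l) (hn : T.n ≤ k) (hk : k < l) (hp : T.n ≤ T.pr k)
    (h : T.ND (k + 1) l) :
    Close (T.E (T.pr k)) (T.st k + 1) (T.E l) (T.b l + 1) (T.mp (k + 1) l ∘ T.im k) :=
  close_comp (step_close hT hn hk hp) (br_close hT (hn.trans le_self_add) le_rfl h)

theorem br_rho [PresSt.{u}] (hT : T.IsTr l) (hi : T.n ≤ i) (hj : j ≤ l) (h : T.ND i j)
    (hk : k < rho (T.E i) (T.b i + 1)) : T.mp i j k < rho (T.E j) (T.b j + 1) := by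
  have hk1 : k ≤ T.b i := hk.le.trans (F3.rho_top _ _)
  refine TreeSt.ind (fun j => T.mp i j k < rho (T.E j) (T.b j + 1)) hT
    (by rwa [mp_id hT (h.le.trans hj) k hk1])
    (fun d k1 k2 k3 k4 k5 k6 ih => ?_) (fun c c1 c2 c3 c4 c5 ih => ?_) j hj h
  · have hs := hT.step d k1 k2
    rw [hs.mp i k3 k4 k hk1]
    rw [← st_eq hs k6] at ih
    rcases lt_or_ge (T.ka d) (rho (T.E (T.pr d)) (T.st d + 1)) with h1 | h1
    · rw [hs.b]; exact ult_lt_rho hs.ult h1 ih
    · rw [im_fix hs _ (ih.trans_le h1)]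
      exact Close.lt_rho (step_close hT k1 k2 (hi.trans k5.le)) ih
        fun x hx => im_fix hs x (hx.trans (ih.trans_le h1))
  · have hL := hT.lim c c2 c3 c1
    refine lt_rho_of ((hL.strong c4 c5).maps k (KE.lt1 hk1)) fun x hx => ?_
    obtain ⟨m, m1, m2, m3, y, m4, rfl⟩ := lim_tree hT c3 hL c4 c5 hx
    have h1 := ih m m1 m2 m3
    rw [← hL.comm m2 m1 c5 m3 k hk1]
    exact PresSt.pres (TreeSt.pm hT (m1.le.trans c3)).ls hL.pm.ls (br_cof hT c3 m3)
      (h1.le.trans (F3.rho_top _ _)) m4 (F3.named_of_lt h1 m4)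

end Pool.Agent.KM.CU

namespace Pool.Agent.KM

universe u

instance [TreeSt.{u}] [KEvSt.{u}] [UltFactSt.{u}] [CloseUltSt.{u}] [DefActSt.{u}] [PresSt.{u}] :
    BrSt.{u} :=
  ⟨CU.br_cof, fun h1 h2 _ h4 => CU.br_close h1 h2 le_rfl h4,
    fun h1 h2 h3 h4 h5 => CU.seg_close h1 h2 h3 (h4.2 _ h2 h3 h2) h5, CU.seg_core,
    fun h1 h2 _ h4 _ h5 => CU.br_rho h1 h2 le_rfl h4 h5⟩

end Pool.Agent.KM
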