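import Pool.Agent.Lib.MP_5c0be7_lc.C.Pres
import Pool.Agent.Lib.MP_5c0be7_lc.L.St

/-!
Project KM, block F7: ultrapower maps by close extenders are close.
-/

set_option autoImplicit false

namespace Pool.Agent.KM.CU

open Ordinal Tr
open scoped Classical

universe u

variable {E E' : Seq.{u}} {b k t : Ordinal.{u}} {i : Ordinal.{u} → Ordinal.{u}}

theorem next_le_rho [AccSt.{u}] (hE : LS E b) (hk : k < rho E b) (h : IsNext E (b + 1) k t) :
    t ≤ rho E b := by
  by_contra h1
  obtain ⟨a, h2, h3, h4⟩ := h.2.2.1 _ (not_le.1 h1)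
  exact hk.not_ge ((AccSt.card_rho E b hE a h2 (h3.trans_le h.2.1)).trans h4)

theorem ult_tree [UltFactSt.{u}] (h : IsUlt E b k E' i) {x : Tr.{u}} (hx : In (i b + 1) x) :
    ∃ c z a, In (b + 1) z ∧ In (i k) a ∧ ev E' (i b + 1) c (node a (z.map i)) = some x := by
  obtain ⟨c, z, a, h1, h2, h3⟩ := UltFactSt.tree h hx.enc
  have i1 := (in_of_ev_eq h3).mono (le_self_add (b := 1))
  refine ⟨postc (.comp .dec (.pair (.comp .fs .snd) .fst)) (prec (.pair .fs (.pair (.const c)
    (.pair .fst .ss))) callc), node (leaf b) z, a, by simp [h1.mono le_self_add], h2, ?_⟩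
  rw [ev_postc, ev_prec _ _ (by simpa using i1)]
  simp only [map_node, map_leaf, bop_pair, bop_fs, bop_fst, bop_ss, fst_node, snd_node, bop_const']
  rw [ev_callc (lt_add_one _) _ (in_erase _ _), ev_erase, h3]
  simp

theorem cv_erase {c x y : Tr.{u}} : Cv E b c.erase x y ↔ Cv E b c x y := by
  simp only [Cv, body, decC_erase]

theorem close_ult [DiagSt.{u}] [AccSt.{u}] [UltFactSt.{u}] (hU : IsUlt E b k E' i)
    (h : Cof E b E' (i b) i) (hN : IsNext E (b + 1) k t)
    (hD : ∀ a, In (i k) a → Def1 E (b + 1) t fun n => Nm E' (n.map i) a) :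
    Close E (b + 1) E' (i b + 1) i := by
  refine ⟨hU.toStrong, fun x hx => ?_⟩
  obtain ⟨c0, z0, a, hz0, ha, h0⟩ := ult_tree hU hx
  obtain ⟨cs, zs, hzs, hs⟩ := hD a ha
  have hE := hU.pm.ls
  have hr := rho_le E b
  have hr' := rho_le E' (i b)
  have hk := hU.lt
  have ht := next_le_rho (hE.mono le_self_add) hk hN
  have hB : RD.{u} fun c E b x y => ∀ k, y.fst = leaf k → ∀ v, In k v →
      ((∃ e, y.snd.fst = leaf e ∧ Conv E b c (node v x) e) ↔
        In b y.snd.snd.fst ∧ Nm E y.snd.snd v) :=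
    RD.ball IsOp.id.fst ((RD.conv IsOp.id.snd.snd.fst (IsOp.id.fst.fst.pair IsOp.id.snd)).iff
      (RD.nm IsOp.id.fst.snd.snd.snd IsOp.id.fst.fst))
  have hf : IsOp.{u} fun c => cmp (.pair .fst (.comp .fs .snd)) c
      (prec (.pair .fst .ss) c0.erase) :=
    IsOp.cmp _ IsOp.id (IsOp.const (erase_of_lv (by simp)))
  obtain ⟨m, ⟨o, ho⟩, hm⟩ := ((RD.eq IsOp.id.fst.fst.fst IsOp.id.snd.snd.fst.fst).and
    ((RD.bd IsOp.id.snd.snd.fst.snd IsOp.id.fst.fst.snd.snd).and
    ((RD.test IsOp.id.fst.fst.snd.fst.isleaf).and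
    ((((hB.idx hf).pre IsOp.id.fst).sub (IsOp.id.snd.fst.pair IsOp.id.snd.snd.snd.fst)).and
    (((RD.cv.idx (IsOp.const (erase_erase cs))).pre IsOp.id.snd).sub
      (IsOp.id.fst.fst.snd.snd.pair IsOp.id.snd.snd.snd.snd)))))).ex
  have hw : In (b + 1) (node (node (leaf k) (leaf t)) (node z0 zs)) := by
    simp [hz0, hzs, KE.lt1 (hk.le.trans hr), KE.lt1 (ht.trans hr)]
  refine ⟨o, _, hw, fun c z hz => ?_⟩
  have hx2 : In (b + 1) (node z z0) := by simp [hz, hz0]
  have i1 : In (i b + 1) (node a ((node z z0).map i)) :=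
    (in_node _ _ _).2 ⟨(in_of_ev_eq h0).fst, KE.w_in h.toWeak hx2⟩
  have e1 : ev E' (i b + 1) c (node x (z.map i)) = ev E' (i b + 1)
      (cmp (.pair .fst (.comp .fs .snd)) c (prec (.pair .fst .ss) c0.erase))
      (node a ((node z z0).map i)) := by
    rw [ev_cmp, ev_prec _ _ i1]
    simp [h0]
  rw [ho, hm c E b _ (by simp only [in_node, hz, true_and]; simpa using hw), e1,
    ev_iff_conv' h hk i1]
  dsimp only
  generalize cmp (.pair .fst (.comp .fs .snd)) c (prec (.pair .fst .ss) c0.erase) = c1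
  simp only [fst_node, snd_node, tv_eq_nil, cv_erase, leaf.injEq, exists_eq_left']
  have tr : ∀ e n, e < rho E b → In t n →
      (∀ v, In k v → (Conv E b c1 (node v (node z z0)) e ↔ In b n.fst ∧ Nm E n v)) →
      (Conv E' (i b) c1 (node a ((node z z0).map i)) (i e) ↔
        (ev E (b + 1) cs (node n zs)).isSome) := fun e n he hn H => by
    have := (hB.elem hU.toStrong c1 hx2 (y := node (leaf k) (node (leaf e) n))
      (by simp [hk, he, hn.mono ht])).2
    simp only [map_node, map_leaf, fst_node, snd_node, leaf.injEq, forall_eq',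
      exists_eq_left'] at this
    rw [map_node, this H a ha, ← hs n hn]
    exact and_iff_right (((in_rho_map hU.toStrong ((hn.mono (ht.trans hr)).mono le_self_add)).2
      (hn.mono ht)).fst.mono hr')
  constructor
  · rintro ⟨e, he, h1⟩
    obtain ⟨n, hn, h2⟩ := AccSt.acc E (b + 1) k t _ hN.2.2.2 (Named.mono'
      ((RD.conv IsOp.id.snd (IsOp.id.fst.fst.pair IsOp.id.snd)).named hE c1 hk hx2
        (y := leaf e) (by simpa using he)) (hr.trans le_self_add))
    simp only [fst_node, snd_node, leaf.injEq, exists_eq_left'] at h2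
    have H : ∀ v, In k v → (Conv E b c1 (node v (node z z0)) e ↔ In b n.fst ∧ Nm E n v) :=
      fun v hv => by rw [← h2 v hv, and_iff_right (hn.fst.mono (ht.trans hr))]
    obtain ⟨y, h3, h4⟩ := (ev_iff_cv (by simp [hzs, (hn.mono (ht.trans hr)).mono le_self_add])).1
      ((tr e n he hn H).1 h1)
    refine ⟨node (node (leaf k) (node (leaf e) n)) y, by simp [hk, he, h3, hn.mono ht], rfl, hn,
      ⟨e, rfl⟩, ?_, h4⟩
    simpa using H
  · rintro ⟨y, h1, h2, h3, ⟨e, h4⟩, h5, h6⟩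
    have he : e < rho E b := by simpa [h4] using h1.fst.snd.fst
    refine ⟨e, he, (tr e _ he h3 fun v hv => ?_).2 ((ev_iff_cv
      (by simp [hzs, (h3.mono (ht.trans hr)).mono le_self_add])).2 ⟨_, h1.snd, h6⟩)⟩
    simpa [h4] using h5 k h2 v hv

end Pool.Agent.KM.CU

namespace Pool.Agent.KM

universe u

instance [DiagSt.{u}] [AccSt.{u}] [UltFactSt.{u}] : CloseUltSt.{u} := ⟨CU.close_ult⟩

end Pool.Agent.KM
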