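import Pool.Agent.Lib.MP_5c0be7_lc.O.FO
import Pool.Agent.Lib.MP_5c0be7_lc.O.StF3
import Pool.Agent.Lib.MP_5c0be7_lc.K.Nm

/-!
Project KM, block C: predicates decided by bodies, uniformly in a code; transfer along strong maps.
-/

set_option autoImplicit false

namespace Pool.Agent.KM.CU

open Ordinal Tr
open scoped Classical

universe u

theorem lt_leaf {t : Tr.{u}} {a : Ordinal.{u}} : Lt t (leaf a) ↔ In a t := by
  constructor
  · rintro (h | ⟨h, h2⟩)
    · exact ht_le_iff.1 (Order.lt_add_one_iff.1 h)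
    · rw [List.shortlex_def] at h2
      cases t with
      | nil => simp
      | leaf c =>
        have : c = a := KE.s1inj h
        subst this
        simp [ser] at h2
      | node l r => cases l <;> simp [ser] at h2
  · exact fun h => Or.inl (Order.lt_add_one_iff.2 h.ht_le)

/-- A family of bodies whose codes are natural in the index. -/
def UF (F : Tr.{u} → Sem.{u}) : Prop :=
  ∃ m : Tr.{u} → Tr.{u}, IsOp m ∧ ∀ c R x, drun (decD (m c)) R x = F c R x

namespace UF

variable {F G H : Tr.{u} → Sem.{u}} {s : Tr.{u} → Tr.{u}}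

theorem congr (h : UF F) (e : ∀ c R x, F c R x = G c R x) : UF G :=
  let ⟨m, h1, h2⟩ := h; ⟨m, h1, fun c R x => (h2 c R x).trans (e c R x)⟩

theorem cst (Q : Bd) : UF.{u} fun _ R x => drun Q R x :=
  ⟨_, IsOp.const (erase_of_lv (Bd.lv_code Q)), fun _ _ _ => by simp⟩

theorem op (hs : IsOp s) : UF fun _ _ x => s x :=
  let ⟨a, ha⟩ := hs; (cst (.op a)).congr fun _ _ x => ha x

theorem orc : UF.{u} fun _ R x => tv (R x) := cst .orc

theorem body (hs : IsOp s) : UF fun c R x => drun (body (s c)) R x :=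
  ⟨_, hs.of .body, fun _ _ _ => by simp⟩

theorem seq (hs : IsOp s) (hF : UF F) (hG : UF G) :
    UF fun c R x => F c R (s (node (G c R x) x)) := by
  obtain ⟨a, ha⟩ := hs
  obtain ⟨m, h1, h2⟩ := hF
  obtain ⟨m', h3, h4⟩ := hG
  exact ⟨_, IsOp.tag3 1 h1 h3 (IsOp.const (erase_of_lv (Op.lv_code a))),
    fun c R x => by simp [tag3, decD, h2, h4, ha]⟩

theorem bex (hF : UF F) : UF fun c R x => tv (∃ t, Lt t x.fst ∧ F c R (node t x.snd) ≠ .nil) := by
  obtain ⟨m, h1, h2⟩ := hF
  exact ⟨_, IsOp.tag3 3 h1 IsOp.nil IsOp.nil, fun c R x => by simp [tag3, decD, h2]⟩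

theorem sub (hs : IsOp s) (hF : UF F) :
    UF fun c R x => F c (fun q => R (s (node q x.snd))) x.fst := by
  obtain ⟨a, ha⟩ := hs
  obtain ⟨m, h1, h2⟩ := hF
  exact ⟨_, IsOp.tag3 4 h1 IsOp.nil (IsOp.const (erase_of_lv (Op.lv_code a))),
    fun c R x => by simp [tag3, decD, h2, ha]⟩

theorem pre (hs : IsOp s) (hF : UF F) : UF fun c R x => F c R (s x) :=
  (seq (hs.comp IsOp.id.snd) hF (op IsOp.nil)).congr fun _ _ _ => rfl

theorem post (hs : IsOp s) (hF : UF F) : UF fun c R x => s (node (F c R x) x) :=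
  seq hs (op IsOp.id) hF

theorem pair (hF : UF F) (hG : UF G) : UF fun c R x => node (F c R x) (G c R x) :=
  (seq IsOp.id ((hF.pre IsOp.id.snd).post (IsOp.id.fst.pair IsOp.id.snd.fst)) hG).congr
    fun _ _ _ => rfl

theorem ite (hF : UF F) (hG : UF G) (hH : UF H) :
    UF fun c R x => if F c R x = .nil then G c R x else H c R x :=
  ((hF.pair (hG.pair hH)).post (IsOp.id.fst.fst.ite_nil IsOp.id.fst.snd.fst
    IsOp.id.fst.snd.snd)).congr fun _ _ _ => rfl

end UF

/-- Predicates of a code, a level, an input and a candidate. -/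
abbrev PQ : Type (u + 1) := Tr.{u} → Seq.{u} → Ordinal.{u} → Tr.{u} → Tr.{u} → Prop

/-- `A` is decided by bodies, uniformly in the code. -/
def RD (A : PQ.{u}) : Prop := ∃ F, UF F ∧ ∀ c E b x y, In (b + 1) x → In b y →
  (F c (Th E b (dn E b x)) y = .nil ↔ A c E b x y)

/-- `y` is the result of the search of the code `c` on `x`, and the code is defined. -/
def Cv (E : Seq.{u}) (b : Ordinal.{u}) (c x y : Tr.{u}) : Prop :=
  (¬ ∃ t, Lt t y ∧ bod E b (body c) x t ≠ .nil) ∧ bod E b (body c) x y ≠ .nil ∧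
    Th E b (dn E b x) (bod E b (body c) x y)

theorem ev_iff_cv {E : Seq.{u}} {b : Ordinal.{u}} {c x : Tr.{u}} (hx : In (b + 1) x) :
    (ev E (b + 1) c x).isSome ↔ ∃ y, In (rho E b) y ∧ Cv E b c x y := by
  rw [ev_succ hx, sev_isSome]; rfl

theorem Cv.unique {E : Seq.{u}} {b : Ordinal.{u}} {c x y y' : Tr.{u}} (h : Cv E b c x y)
    (h' : Cv E b c x y') : y = y' := by
  rcases lt_tri y y' with h1 | h1 | h1
  · exact absurd ⟨y, h1, h.2.1⟩ h'.1
  · exact h1
  · exact absurd ⟨y', h1, h'.2.1⟩ h.1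

/-- The call of a level given as data is defined. -/
def Cl (E : Seq.{u}) (t : Tr.{u}) : Prop :=
  ∃ a, t.fst = leaf a ∧ (ev E a t.snd.fst t.snd.snd).isSome

namespace RD

variable {A B : PQ.{u}} {s f : Tr.{u} → Tr.{u}}

theorem congr (h : RD A) (e : ∀ c E b x y, In (b + 1) x → In b y → (A c E b x y ↔ B c E b x y)) :
    RD B :=
  let ⟨F, h1, h2⟩ := h; ⟨F, h1, fun c E b x y i j => (h2 c E b x y i j).trans (e c E b x y i j)⟩

theorem raw (hs : IsOp s) : RD fun _ E b x y => Th E b (dn E b x) (s y) :=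
  ⟨_, UF.orc.pre hs, fun _ _ _ _ _ _ _ => by simp⟩

theorem not (h : RD A) : RD fun c E b x y => ¬ A c E b x y :=
  let ⟨_, h1, h2⟩ := h
  ⟨_, h1.ite (UF.op (IsOp.nil.pair IsOp.nil)) (UF.op IsOp.nil), fun c E b x y i j => by
    simp [← h2 c E b x y i j]⟩

theorem and (hA : RD A) (hB : RD B) : RD fun c E b x y => A c E b x y ∧ B c E b x y :=
  let ⟨_, h1, h2⟩ := hA; let ⟨_, h3, h4⟩ := hB
  ⟨_, h1.ite h3 (UF.op (IsOp.nil.pair IsOp.nil)), fun c E b x y i j => by
    dsimp only
    rw [← h2 c E b x y i j, ← h4 c E b x y i j]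
    split_ifs with h <;> simp [h]⟩

theorem or (hA : RD A) (hB : RD B) : RD fun c E b x y => A c E b x y ∨ B c E b x y :=
  (hA.not.and hB.not).not.congr fun _ _ _ _ _ _ _ => by tauto

theorem imp (hA : RD A) (hB : RD B) : RD fun c E b x y => A c E b x y → B c E b x y :=
  (hA.and hB.not).not.congr fun _ _ _ _ _ _ _ => by tauto

theorem iff (hA : RD A) (hB : RD B) : RD fun c E b x y => A c E b x y ↔ B c E b x y :=
  ((hA.imp hB).and (hB.imp hA)).congr fun _ _ _ _ _ _ _ => by tauto

theorem pre (hs : IsOp s) (h : RD A) : RD fun c E b x y => A c E b x (s y) :=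
  let ⟨_, h1, h2⟩ := h
  ⟨_, h1.pre hs, fun c E b x _ i j => h2 c E b x _ i (hs.mem j)⟩

theorem idx (hf : IsOp f) (h : RD A) : RD fun c E b x y => A (f c) E b x y :=
  let ⟨F, ⟨_, h0, h1⟩, h2⟩ := h
  ⟨fun c => F (f c), ⟨_, h0.comp hf, fun _ R x => h1 _ R x⟩, fun c => h2 (f c)⟩

/-- Bounded quantifier. -/
theorem bex (hs : IsOp s) (h : RD A) :
    RD fun c E b x y => ∃ k, s y = leaf k ∧ ∃ t, In k t ∧ A c E b x (node t y) := by
  obtain ⟨F, h1, h2⟩ := h.not
  refine ⟨_, (UF.op hs.isleaf).ite (h1.bex.pre (hs.pair IsOp.id)) (UF.op (IsOp.nil.pair IsOp.nil)),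
    fun c E b x y i j => ?_⟩
  by_cases h3 : ∃ k, s y = leaf k
  · obtain ⟨k, h3⟩ := h3
    have hk : k < b := by simpa [h3] using hs.mem j
    simp only [h3, leaf.injEq, exists_eq', tv_eq_nil, if_true, fst_node, snd_node, lt_leaf,
      exists_eq_left']
    refine exists_congr fun t => and_congr_right fun ht => ?_
    rw [ne_eq, h2 c E b x _ i (by simp [ht.mono hk.le, j]), not_not]
  · simp only [tv_eq_nil, h3, if_false, reduceCtorEq, false_iff]
    exact fun ⟨k, h4, _⟩ => h3 ⟨k, h4⟩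

theorem ball (hs : IsOp s) (h : RD A) :
    RD fun c E b x y => ∀ k, s y = leaf k → ∀ t, In k t → A c E b x (node t y) :=
  (bex hs h.not).not.congr fun _ _ _ _ _ _ _ => by simp

/-- Change of the input. -/
theorem sub (hs : IsOp s) (h : RD A) : RD fun c E b x y => A c E b (s (node y x)) y := by
  obtain ⟨F, h1, h2⟩ := h
  obtain ⟨a, ha⟩ := hs
  have h3 : IsOp.{u} fun t => bop (Op.chg.{u} a) (node t.fst
      (node (opc (.comp .enc (.pair .nil .fst))) t.snd)) :=
    (IsOp.id.fst.pair ((IsOp.const (erase_of_lv (lv_opc _))).pair IsOp.id.snd)).of _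
  refine ⟨_, (h1.sub h3).pre (IsOp.id.pair IsOp.id), fun c E b x y i j => ?_⟩
  have i2 : In (b + 1) (node y x) := by simp [i, j.mono le_self_add]
  dsimp only
  rw [← h2 c E b _ y (ha _ ▸ i2.bop a) j]
  have : (fun q => Th E b (dn E b x) (bop (Op.chg.{u} a) (node q
      (node (opc (.comp .enc (.pair .nil .fst))) y)))) = Th E b (dn E b (s (node y x))) := by
    funext q
    simp only [ThL]
    rw [(law E b).chg a i, fst_node, snd_node, (law E b).opc _ _ (by simp [j, in_dn E i])]
    simp [ha]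
  simp only [fst_node, snd_node, this]

theorem test0 (hs : IsOp s) : RD fun _ _ _ x _ => s x = .nil := by
  obtain ⟨a, ha⟩ := hs
  refine (raw (s := fun _ => node (tst (.comp (.lift a) .fs)) .nil)
    ((IsOp.const (erase_of_lv (lv_tst _))).pair IsOp.nil)).congr fun c E b x y i j => ?_
  simp only [ThL, fst_node, snd_node]
  rw [(law E b).tst _ (by simp [in_dn E i])]
  have : Tr.enc (leaf b) (s x) = .nil ↔ s x = .nil := by
    cases s x with
    | leaf a => unfold Tr.enc; split_ifs <;> simp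
    | _ => simp [enc_node]
  simp [dnL, lift_spec a i.enc, ha, this]

theorem test (hs : IsOp s) : RD fun _ _ _ x y => s (node y x) = .nil := (test0 IsOp.id).sub hs

theorem eq (hs : IsOp s) (hf : IsOp f) : RD fun _ _ _ x y => s (node y x) = f (node y x) :=
  (test (hs.eq hf)).congr fun _ _ _ _ _ _ _ => by simp

theorem bd (hs : IsOp s) (hf : IsOp f) :
    RD fun _ _ _ x y => ∃ a, s (node y x) = leaf a ∧ In a (f (node y x)) :=
  (test (hs.bd hf)).congr fun _ _ _ _ _ _ _ => by simp

/-- The call of a level below `b`. -/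
theorem low0 : RD.{u} fun _ E b x _ => In b x.fst ∧ Cl E x := by
  refine (raw (s := fun _ => node (cmp (.comp .dec (.pair .nil .fst)) unoptc lowc) .nil)
    ((IsOp.const (by simp [erase_of_lv])).pair IsOp.nil)).congr fun c E b x y i j => ?_
  have hd := in_dn E i
  have hi : In b (node .nil (dn E b x)) := by simpa using hd
  have H := law E b
  simp only [ThL, fst_node, snd_node]
  rw [H.cmp, lowc, H.post, H.pre _ _ hi, H.evc _ (In.bop (by simpa using hd) _)]
  simp only [Option.map_some, Option.bind_some, bop_comp, bop_pair, bop_dec, bop_nil, bop_fst,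
    bop_enc, fst_node, snd_node, dec_enc, bop_ff, bop_id, bop_fs, bop_snd, dnL]
  rw [H.unopt _ (In.call (In.dec i.enc.fst.fst i.enc))]
  by_cases h : x.fst = leaf b
  · rw [enc_ff_eq_one.2 h]
    have : ¬ In b x.fst := by simp [h]
    simp only [this, false_and, iff_false]
    cases x with
    | node l r =>
      rw [fst_node] at h
      subst h
      simp [dec_enc_node, dec_enc_leaf, call, Tr.one]
    | _ => simp at h
  · rw [call_low i h]
    unfold call Cl
    cases h2 : x.fst with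
    | leaf a =>
      have h3 : a < b + 1 := by simpa [h2] using i.fst
      have h4 : a < b := lt_of_le_of_ne (KE.le1 h3) fun e => h (by rw [h2, e])
      simp [h3, h4]
    | _ => simp

theorem low (hs : IsOp s) :
    RD fun _ E b x y => In b (s (node y x)).fst ∧ Cl E (s (node y x)) := low0.sub hs

/-- Membership in a set named below `b`. -/
theorem nm (hs : IsOp s) (hf : IsOp f) :
    RD fun _ E b x y => In b (s (node y x)).fst ∧ Nm E (s (node y x)) (f (node y x)) :=
  low (hs.fst.pair (hs.snd.fst.pair (hf.pair hs.snd.snd)))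

theorem cv : RD.{u} fun c E b x y => Cv E b c x y := by
  have h := UF.body.{u} IsOp.id
  refine ⟨_, ((h.pre IsOp.id.fst).bex.pre (IsOp.id.pair IsOp.nil)).ite
    (UF.op (IsOp.nil.pair IsOp.nil)) (h.ite (UF.op (IsOp.nil.pair IsOp.nil))
      (UF.seq IsOp.id.fst UF.orc h)), fun c E b x y i j => ?_⟩
  simp only [Cv, bod_eq, fst_node, tv_eq_nil]
  split_ifs with h1 h2
  · exact ⟨fun k => by simp at k, fun k => absurd h1 k.1⟩
  · exact ⟨fun k => by simp at k, fun k => absurd h2 k.2.1⟩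
  · rw [tv_eq_nil]; exact ⟨fun k => ⟨h1, h2, k⟩, fun k => k.2.2⟩

end RD

/-- `A` is the domain of a code at the successor level, uniformly in the index. -/
def US (A : Tr.{u} → PR.{u}) : Prop := ∃ m : Tr.{u} → Tr.{u}, IsOp m ∧
  ∀ c E b x, In (b + 1) x → ((ev E (b + 1) (m c) x).isSome ↔ A c E b x)

theorem RD.ex {A : PQ.{u}} (h : RD A) :
    US fun c E b x => ∃ y, In (rho E b) y ∧ A c E b x y := by
  obtain ⟨F, h1, h2⟩ := h
  obtain ⟨m, h3, h4⟩ := h1.ite (UF.op ((IsOp.const (erase_of_lv (lv_opc .nil))).pair IsOp.nil))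
    (UF.op IsOp.nil)
  refine ⟨_, IsOp.tag3 5 h3 IsOp.nil IsOp.nil, fun c E b x i => ?_⟩
  have hb : ∀ y, In b y → bod E b (decD (m c)) x y =
      if A c E b x y then node (opc .nil) .nil else .nil := fun y j => by
    rw [bod_eq, h4]; simp only [h2 c E b x y i j]
  have hr := rho_le E b
  rw [ev_succ i, KM.body]
  change (sev E b (decC (atomc (m c))).body x).isSome ↔ _
  rw [decC_atomc, Cd.body]
  by_cases h5 : ∃ y, In (rho E b) y ∧ A c E b x y
  · obtain ⟨y, h6, h7⟩ := id h5
    rw [sev_pass (v := node (opc .nil) .nil) ⟨y, h6, by simp [hb y (h6.mono hr), h7]⟩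
      fun y j k => by
        rw [hb y (j.mono hr)] at k ⊢
        split_ifs at k ⊢
        exacts [rfl, absurd rfl k]]
    simp [(law E b).opc .nil (node .nil (dn E b x)) (by simp [in_dn E i]), h5]
  · rw [sev_none fun y j => by rw [hb y (j.mono hr), if_neg fun k => h5 ⟨y, j, k⟩]]
    simp [h5]

variable {E E' : Seq.{u}} {b b' : Ordinal.{u}} {j : Ordinal.{u} → Ordinal.{u}}

theorem strong_isSome {d d' : Ordinal.{u}} (h : Strong E d E' d' j) (c : Tr.{u}) {x : Tr.{u}}
    (hx : In d x) : (ev E' d' c (x.map j)).isSome = (ev E d c x).isSome := by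
  rw [h.commTop c x hx, Option.isSome_map]

theorem US.elem {A : Tr.{u} → PR.{u}} (hA : US A) (h : Strong E (b + 1) E' (b' + 1) j)
    (c : Tr.{u}) {x : Tr.{u}} (hx : In (b + 1) x) : A c E' b' (x.map j) ↔ A c E b x := by
  obtain ⟨m, -, h2⟩ := hA
  rw [← h2 c E b x hx, ← h2 c E' b' _ (KE.w_in h.toWeak hx), strong_isSome h _ hx]

theorem in_rho_map (h : Strong E (b + 1) E' (b' + 1) j) {y : Tr.{u}} (hy : In (b + 1) y) :
    In (rho E' b') (y.map j) ↔ In (rho E b) y := by
  have := (RD.eq IsOp.id.fst IsOp.id.snd).ex.elem h .nil hy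
  simpa using this

theorem lt_rho_map (h : Strong E (b + 1) E' (b' + 1) j) {a : Ordinal.{u}} (ha : a ≤ b) :
    j a < rho E' b' ↔ a < rho E b := by
  simpa using in_rho_map h (y := leaf a) (by simpa using KE.lt1 ha)

/-- Decidable predicates are preserved by strong maps. -/
theorem RD.elem {A : PQ.{u}} (hA : RD A) (h : Strong E (b + 1) E' (b' + 1) j) (c : Tr.{u})
    {x y : Tr.{u}} (hx : In (b + 1) x) (hy : In (rho E b) y) :
    A c E' b' (x.map j) (y.map j) ↔ A c E b x y := by
  have hy1 : In (b + 1) y := hy.mono ((rho_le E b).trans le_self_add)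
  have := ((RD.eq IsOp.id.fst IsOp.id.snd.fst).and (hA.sub IsOp.id.snd.snd)).ex.elem h c
    (x := node y x) (by simp [hx, hy1])
  simpa [hy, (in_rho_map h hy1).2 hy] using this

theorem df_named {A : PR.{u}} (hA : Df A) {r a k : Ordinal.{u}} {z : Tr.{u}} (hE : LS E r)
    (hr : ¬ Suc r) (ha : a < r) (hk : k ≤ a) (hz : In a z) :
    Named E r k fun q => A E a (node q z) := by
  obtain ⟨n, c, h1, h2⟩ := hA.semi
  have h3 : ∀ m : ℕ, a + m < r := fun m => by
    induction m with
    | zero => simpa using ha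
    | succ m ih => rw [add_succ_cast]; exact not_suc_iff.1 hr _ ih
  refine ⟨node (leaf (a + (n + 1 : ℕ))) (node c z), ?_, fun q hq => ?_⟩
  · simp only [in_node, in_leaf]
    exact ⟨h3 _, in_of_lf h1 _, hz.mono ha.le⟩
  · simp only [NmL, fst_node, snd_node, leaf.injEq, exists_eq_left']
    rw [h2 E a _ (hE.mono (h3 _).le), if_pos (by simp [hz, hq.mono hk])]
    dsimp only
    split_ifs with h <;> simp [h]

/-- Decidable sets are named below the projectum. -/
theorem RD.named [DiagSt.{u}] [AccSt.{u}] {A : PQ.{u}} (hA : RD A) (hE : LS E (b + 1)) (c : Tr.{u})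
    {k : Ordinal.{u}} {x y : Tr.{u}} (hk : k < rho E b) (hx : In (b + 1) x) (hy : In (rho E b) y) :
    Named E (rho E b) k fun q => A c E b x (node q y) := by
  obtain ⟨F, ⟨m, -, h1⟩, h2⟩ := hA
  have hl := DiagSt.rho_lim E b
  have hl' := limit_of_not_suc hl (ne_of_gt (lt_of_le_of_lt zero_le hk))
  have hr := rho_le E b
  have he : max k y.ht < rho E b := max_lt hk (hy.ht_lt hl')
  obtain ⟨n, hn, h3⟩ := AccSt.acc_card E b _ _ _
    (fun a h1 h2 => AccSt.card_rho E b (hE.mono le_self_add) a h1 (h2.trans (lt_add_one b))) he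
    (DiagSt.named_of_lt E b _ _ he (in_dn E hx))
  have hD : Df.{u} fun E _ z => drun (decD (m c)) (fun q => Nm E z.snd.snd q)
      (node z.fst z.snd.fst) = .nil :=
    Df.eq ((Fn.drun _ (Df.nm Fn.id.snd Fn.id.fst)).pre
      ((IsOp.id.fst.pair IsOp.id.snd.fst).pair IsOp.id.snd.snd)) Fn.nil
  obtain ⟨t, h4, h5⟩ := df_named hD (hE.mono (hr.trans le_self_add)) hl
    (max_lt he (hn.ht_lt hl')) ((le_max_left _ _).trans (le_max_left _ _)) (z := node y n)
    ((in_node _ _ _).2 ⟨(in_ht y).mono ((le_max_right _ _).trans (le_max_left _ _)),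
      (in_ht n).mono (le_max_right _ _)⟩)
  refine ⟨t, h4, fun q hq => (h5 q hq).trans ?_⟩
  have i : In (max k y.ht) (node q y) :=
    (in_node _ _ _).2 ⟨hq.mono (le_max_left _ _), (in_ht y).mono (le_max_right _ _)⟩
  simp only [fst_node, snd_node]
  rw [drun_congr _ i h3, h1, h2 c E b x _ hx (i.mono (he.le.trans hr))]

end Pool.Agent.KM.CU
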