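import Pool.Agent.Lib.MP_5c0be7_lc.C.St
import Pool.Agent.Lib.MP_5c0be7_lc.O.Once
import Pool.Agent.Lib.MP_5c0be7_lc.C.U
import Pool.Agent.Lib.MP_5c0be7_lc.O.Api

/-!
Project KM, block F7: the measures of an extender on the sequence are defined over the next level.
-/

namespace Pool.Agent.KM

open Ordinal Tr
open scoped Classical

universe u

namespace DefAct

variable {E : Seq.{u}} {v k t : Ordinal.{u}} {e : Ordinal.{u} → Ordinal.{u}}

/-- An active index is not a successor. -/
theorem not_suc (h : Act E v k t e) : ¬ Suc v := by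
  rintro ⟨a, rfl⟩
  obtain ⟨x, h1, h2⟩ := h.cof a (lt_add_one a)
  exact absurd (Order.lt_add_one_iff.1 (h.weak.maps x h1)) (not_le.2 h2)

theorem rel_iff (h : Act E v k t e) (n y : Tr.{u}) :
    Tr.Rel (E v) n y ↔ In t n ∧ y = n.map e := by
  induction n generalizing y with
  | nil => cases y <;> simp [Tr.Rel]
  | leaf a => cases y <;> simp [Tr.Rel, h.graph]
  | node l r ihl ihr => cases y <;> simp [Tr.Rel, ihl, ihr, and_and_and_comm]

/-- The oracle of level `b` is decided one level up. -/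
theorem rd_ora : CU.RD.{u} fun _ E b x _ => ora E b (Tr.dec .nil (Tr.enc (leaf b) x)) := by
  refine (CU.RD.raw (s := fun _ => node (nilc (prec (.comp .dec (.pair .nil .fs)) extc)) .nil)
    ((IsOp.const (erase_of_lv (by simp))).pair IsOp.nil)).congr fun c E b x y i _ => ?_
  have hi : In b (node .nil (dn E b x)) := by simpa using in_dn E i
  simp only [ThL, fst_node, snd_node]
  rw [ev_nilc_isSome, ev_prec _ _ hi, ev_extc (hi.bop _)]
  simp [dn_eq]

end DefAct

instance : DefActSt.{u} := ⟨by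
  intro E v k t e a hE h ha
  have I := IsOp.id.{u}
  obtain ⟨m, -, hm⟩ := ((DefAct.rd_ora.sub (I.snd.fst.pair I.fst)).and
    (CU.RD.nm I.fst I.snd.snd)).ex
  have hv := DefAct.not_suc h
  refine ⟨m .nil, a, ha.mono le_self_add, fun n hn => ?_⟩
  have hn' := hn.mono h.dom.le
  rw [hm .nil E v _ ((in_node _ _ _).2 ⟨hn'.mono le_self_add, ha.mono le_self_add⟩)]
  simp only [fst_node, snd_node, (hE v (lt_add_one v)).2 hv]
  constructor
  · intro h1
    have h2 := KN.in_map' h.weak.maps hn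
    refine ⟨n.map e, h2, ?_, h2.fst, h1⟩
    rw [enc_eq_nil ((in_node _ _ _).2 ⟨hn', h2⟩), dec_enc]
    exact ⟨hv, (DefAct.rel_iff h _ _).2 ⟨hn, rfl⟩⟩
  · rintro ⟨y, h1, h2, -, h3⟩
    rw [enc_eq_nil ((in_node _ _ _).2 ⟨hn', h1⟩), dec_enc] at h2
    rw [← ((DefAct.rel_iff h n y).1 h2.2).2]
    exact h3⟩

end Pool.Agent.KM
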