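import Pool.Agent.Lib.MP_5c0be7_lc.C.CloseUlt
import Pool.Agent.Lib.MP_5c0be7_lc.O.F3c

/-!
Project KM, block F7: closure properties of close and cofinal maps.
-/

set_option autoImplicit false

namespace Pool.Agent.KM.CU

open Ordinal Tr
open scoped Classical

universe u

variable {E E' E'' : Seq.{u}} {a b b' b'' d d' d'' k k' : Ordinal.{u}}
  {i j j' : Ordinal.{u} → Ordinal.{u}} {A B : Tr.{u} → Prop}

theorem def1_iff_cs : Def1 E d k A ↔ F3.CS E d k A :=
  exists₂_congr fun _ _ => and_congr_right fun _ => forall₂_congr fun _ _ => Iff.comm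

theorem Def1.lift (h : Def1 E a k A) (ha : a ≤ d) : Def1 E d k A :=
  def1_iff_cs.2 ((def1_iff_cs.1 h).lift ha)

theorem Def1.congr' (h : Def1 E d k A) (e : ∀ q, In k q → (A q ↔ B q)) : Def1 E d k B :=
  def1_iff_cs.2 ((def1_iff_cs.1 h).congr e)

theorem Def1.named (h : Def1 E a k A) (ha : a < d) : Named E d k A := (def1_iff_cs.1 h).named ha

theorem map_fix (h : ∀ x < k, j x = x) {q : Tr.{u}} (hq : In k q) : q.map j = q :=
  map_eq_self fun x hx => h x (hq x hx)

theorem Def1.push (h : Def1 E d k A) (hj : Strong E d E' d' j) (hk : k ≤ d)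
    (hf : ∀ x < k, j x = x) : Def1 E' d' k A := by
  obtain ⟨c, z, h1, h2⟩ := h
  refine ⟨c, _, KE.w_in hj.toWeak h1, fun q hq => ?_⟩
  rw [h2 q hq, ← strong_isSome hj c (by simp [h1, hq.mono hk]), map_node, map_fix hf hq]

theorem named_push (h : Named E d k A) (hj : Weak E d E' d' j) (hk : k ≤ d)
    (hf : ∀ x < k, j x = x) : Named E' d' k A := by
  obtain ⟨t, h1, h2⟩ := h
  refine ⟨_, KE.w_in hj h1, fun q hq => ?_⟩
  have := KN.wnm hj h1 (hq.mono hk)
  rw [map_fix hf hq] at this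
  exact this.trans (h2 q hq)

theorem named_agree (h : Named E d k A) (ha : Agree E E' d) : Named E' d k A :=
  let ⟨t, h1, h2⟩ := h; ⟨t, h1, fun q hq => (KN.anm ha h1).symm.trans (h2 q hq)⟩

theorem named_down (h : Named E d k A) (hk : k' ≤ k) : Named E d k' A :=
  let ⟨t, h1, h2⟩ := h; ⟨t, h1, fun q hq => h2 q (hq.mono hk)⟩

theorem th_map (hj : Strong E d E' d' j) (hk : k ≤ d) (hf : ∀ x < k, j x = x) {x q : Tr.{u}}
    (hx : In d x) (hq : In k q) : Th E' d' (x.map j) q ↔ Th E d x q := by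
  simp only [ThL]
  rw [← strong_isSome hj q.fst (x := node q.snd x) (by simp [hx, hq.snd.mono hk]), map_node,
    map_fix hf hq.snd]

theorem lt_rho_of (hk : k < d) (h : ∀ x, In d x → Named E d k (Th E d x)) : k < rho E d := by
  by_contra h1
  rcases F3.rho_cases E d with h2 | ⟨x, h2, h3⟩
  · exact h1 (h2.symm ▸ hk)
  · exact h3 (named_down (h x h2) (not_lt.1 h1))

/-- The theory of a value is a section. -/
theorem named_th_val {c v z x : Tr.{u}} (hk : k < d) (hv : In k v)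
    (he : ev E d c (node v z) = some x) (h : Named E d k (Th E d z)) : Named E d k (Th E d x) := by
  obtain ⟨o, ho⟩ : IsOp.{u} fun t => node (cmp (.pair (.comp .ff .snd) .fst) t.fst.fst
      (prec (.pair .sf .snd) c.erase)) (node t.fst.snd t.snd) :=
    (IsOp.cmp _ IsOp.id.fst.fst (IsOp.const (erase_of_lv (by simp)))).pair
      (IsOp.id.fst.snd.pair IsOp.id.snd)
  refine Named.congr' (NamedSt.pre E d k k _ o v hk (hv.ht_le.trans_lt hk) h
    fun q hq => In.bop (by simp [hq, hv]) o) fun q hq => ?_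
  rw [ho]
  simp only [ThL, fst_node, snd_node]
  have hz : In d z := (in_of_ev_eq he).snd
  rw [ev_cmp, ev_prec _ _ (by simp [hq.snd.mono hk.le, hv.mono hk.le, hz])]
  simp [he]

/-! Close maps. -/

theorem close_congr (h : Close E d E' d' j) (e : ∀ x < d, j x = j' x) : Close E d E' d' j' :=
  ⟨KN.strong_congr h.toStrong e, fun x hx =>
    let ⟨o, w, h1, h2⟩ := h.wrap x hx
    ⟨o, w, h1, fun c z hz => KN.map_eq e hz ▸ h2 c z hz⟩⟩

theorem close_id : Close E d E d id := by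
  refine ⟨KE.strong_id, fun x hx => ?_⟩
  obtain ⟨o, ho⟩ : IsOp.{u} fun c => cmp (.comp (.pair .snd .fst) .snd) c (opc .nil) :=
    IsOp.cmp _ IsOp.id (IsOp.const (erase_of_lv (lv_opc _)))
  refine ⟨o, x, hx, fun c z hz => ?_⟩
  rw [ho, ev_pre _ _ (by simp [hx, hz]), map_eq_self (f := id) fun _ _ => rfl]
  simp

/-- A map is close if every point comes from a close factor. -/
theorem close_of (h : Strong E d E'' d'' j) (H : ∀ x, In d'' x → ∃ E' d' i j' x0,
    Close E d E' d' i ∧ Strong E' d' E'' d'' j' ∧ (∀ y < d, j' (i y) = j y) ∧ In d' x0 ∧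
      x0.map j' = x) : Close E d E'' d'' j := by
  refine ⟨h, fun x hx => ?_⟩
  obtain ⟨E', d', i, j', x0, h1, h2, h3, h4, rfl⟩ := H x hx
  obtain ⟨o, w, h5, h6⟩ := h1.wrap x0 h4
  refine ⟨o, w, h5, fun c z hz => ?_⟩
  rw [← h6 c z hz, ← strong_isSome h2 c (by simp [h4, KE.w_in h1.toWeak hz]), map_node, map_map,
    map_congr (f := fun a => j' (i a)) fun y hy => h3 y (hz y hy)]

theorem close_comp (h : Close E d E' d' i) (h' : Close E' d' E'' d'' j) :
    Close E d E'' d'' (j ∘ i) := by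
  refine ⟨KE.strong_comp h.toStrong h'.toStrong, fun x hx => ?_⟩
  obtain ⟨o', w', h1, h2⟩ := h'.wrap x hx
  obtain ⟨o, w, h3, h4⟩ := h.wrap w' h1
  obtain ⟨o1, ho⟩ : IsOp.{u} fun c => bop o (cmp (.comp (.pair .snd .fst) .snd) (bop o' c)
      (opc .nil)) := (IsOp.cmp _ (IsOp.id.of o') (IsOp.const (erase_of_lv (lv_opc _)))).of o
  refine ⟨o1, w, h3, fun c z hz => ?_⟩
  have hz' := KE.w_in h.toWeak hz
  rw [ho, ← h4 _ z hz, ev_pre _ _ (by simp [h1, hz']), KE.map_comp, h2 c _ hz']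
  simp

/-- The theory of a point of the target is a section of a theory of the source. -/
theorem Close.th (h : Close E d E' d' j) (hk : k ≤ d) (hf : ∀ x < k, j x = x) {x : Tr.{u}}
    (hx : In d' x) : ∃ (o : Op) (w : Tr.{u}), In d w ∧
      ∀ q, In k q → (Th E' d' x q ↔ Th E d w (bop o q)) := by
  obtain ⟨o, w, h1, h2⟩ := h.wrap x hx
  obtain ⟨o1, ho⟩ : IsOp.{u} fun q => node (bop o (cmp (.comp (.pair .snd .fst) .snd) q.fst
      (opc .nil))) q.snd :=
    ((IsOp.cmp _ IsOp.id.fst (IsOp.const (erase_of_lv (lv_opc _)))).of o).pair IsOp.id.snd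
  refine ⟨o1, w, h1, fun q hq => ?_⟩
  have hq' := KE.w_in h.toWeak (hq.snd.mono hk)
  rw [ho]
  simp only [ThL, fst_node, snd_node]
  rw [← h2 _ _ (hq.snd.mono hk), ev_pre _ _ (by simp [hx, hq']), map_fix hf hq.snd]
  simp

theorem Close.pull (h : Close E d E' d' j) (hk : k ≤ d) (hf : ∀ x < k, j x = x) :
    Pull E d E' d' k := by
  rintro k' hk' A ⟨c, x, hx, h1⟩
  obtain ⟨o2, w2, h4, h5⟩ := h.wrap x hx
  refine ⟨bop o2 (cmp (.comp (.pair .snd .fst) .snd) c (opc .nil)), w2, h4, fun q hq => ?_⟩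
  have hq' := (hq.mono hk').mono hk
  rw [h1 q hq, ← h5 _ _ hq', ev_pre _ _ (by simp [hx, KE.w_in h.toWeak hq']),
    map_fix hf (hq.mono hk')]
  simp

/-- Below the projectum of the source, theories of the target are named in the source. -/
theorem Close.named (h : Close E d E' d' j) (hk : k < rho E d) (hf : ∀ x < k, j x = x)
    {x : Tr.{u}} (hx : In d' x) : Named E d k (Th E' d' x) := by
  have hd := hk.trans_le (rho_le E d)
  obtain ⟨o, w, h1, h2⟩ := Close.th h hd.le hf hx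
  exact Named.congr' (NamedSt.pre E d k k _ (.comp o .fst) .nil hd (lt_of_le_of_lt zero_le hd)
    (F3.named_of_lt hk h1) fun q hq => In.bop (by simp [hq]) _) fun q hq => (h2 q hq).symm

theorem Close.lt_rho (h : Close E d E' d' j) (hk : k < rho E d) (hf : ∀ x < k, j x = x) :
    k < rho E' d' := by
  have hd := hk.trans_le (rho_le E d)
  exact lt_rho_of ((KE.w_self h.toWeak hd).trans_lt (h.maps k hd)) fun x hx =>
    named_push (Close.named h hk hf hx) h.toWeak hd.le hf

theorem rho_le_of_pp (h : Strong E (b + 1) E' d' j) (hf : ∀ x < rho E (b + 1), j x = x)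
    (hp : PP E (b + 1) E' d' (rho E (b + 1))) : rho E' d' ≤ rho E (b + 1) := by
  rcases F3.rho_cases E (b + 1) with h2 | ⟨x, h2, h3⟩
  · exact absurd (h2 ▸ F3.rho_top E b) (not_le.2 (lt_add_one b))
  · exact F3.rho_le_of (KE.w_in h.toWeak h2) fun h4 => h3 (Named.congr' (hp _ h4) fun q hq =>
      th_map h (rho_le E _) hf h2 hq)

/-- Close maps above the projectum that add no subsets keep the projectum. -/
theorem Close.rho_eq (h : Close E (b + 1) E' d' j) (hf : ∀ x < rho E (b + 1), j x = x)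
    (hp : PP E (b + 1) E' d' (rho E (b + 1))) : rho E' d' = rho E (b + 1) :=
  (rho_le_of_pp h.toStrong hf hp).antisymm (le_of_forall_lt fun _ hk =>
    Close.lt_rho h hk fun x hx => hf x (hx.trans hk))

theorem pull_lift (h : a ≤ d) : Pull E d E a k := fun _ _ _ H => Def1.lift H h

theorem pull_trans (h : Pull E d E' d' k) (h' : Pull E' d' E'' d'' k) : Pull E d E'' d'' k :=
  fun k' hk A H => h k' hk A (h' k' hk A H)

theorem pull_mono (h : Pull E d E' d' k) (hk : k' ≤ k) : Pull E d E' d' k' :=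
  fun _ h1 => h _ (h1.trans hk)

theorem pp_trans (h : PP E d E' d' k) (h' : PP E' d' E'' d'' k) : PP E d E'' d'' k :=
  fun A H => h A (h' A H)

theorem pp_mono (h : PP E d E' d' k) (hk : k' ≤ k) : PP E d E' d' k' := fun _ ⟨t, h1, h2⟩ =>
  Named.congr' (named_down (h (Nm E' t) ⟨t, h1, fun _ _ => Iff.rfl⟩) hk) h2

/-! Cofinal maps. -/

theorem cof_congr (h : Cof E b E' b' j) (e : ∀ x ≤ b, j x = j' x) : Cof E b E' b' j' :=
  ⟨KN.strong_congr h.toStrong fun x hx => e x (KE.le1 hx), fun y hy =>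
    let ⟨x, h1, h2⟩ := h.cof y hy
    ⟨x, h1, e x (h1.le.trans (rho_le E b)) ▸ h2⟩⟩

theorem cof_id : Cof E b E b id := ⟨KE.strong_id, fun y hy => ⟨y, hy, le_rfl⟩⟩

theorem cof_comp (h : Cof E b E' b' i) (h' : Cof E' b' E'' b'' j) : Cof E b E'' b'' (j ∘ i) := by
  refine ⟨KE.strong_comp h.toStrong h'.toStrong, fun y hy => ?_⟩
  obtain ⟨x, h1, h2⟩ := h'.cof y hy
  obtain ⟨z, h3, h4⟩ := h.cof x h1
  exact ⟨z, h3, h2.trans ((KE.w_le h'.toWeak (KE.lt1 (h1.le.trans (rho_le E' b')))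
    (h.maps z (KE.lt1 (h3.le.trans (rho_le E b))))).2 h4)⟩

theorem solid_map [PresSt.{u}] (hE : LS E (b + 1)) (hE' : LS E' (b' + 1)) (h : Cof E b E' b' j)
    {p : Tr.{u}} (hp : In (b + 1) p) (hs : Solid E (b + 1) p) : Solid E' (b' + 1) (p.map j) := by
  induction p with
  | nil => trivial
  | leaf a => exact hs.elim
  | node l s _ ih =>
    obtain ⟨g, rfl, h1, h2, h3⟩ := hs
    have hg : g < b + 1 := by simpa using hp.fst
    refine ⟨j g, rfl, fun a ha => ?_, PresSt.pres hE hE' h (KE.le1 hg) hp.snd h2, ih hp.snd h3⟩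
    rw [lv_map] at ha
    obtain ⟨x, hx, rfl⟩ := ha
    exact h.mono hg (hp.snd x hx) (h1 x hx)

/-- An ultrapower map with critical point below the projectum maps it into the projectum. -/
theorem ult_lt_rho [PresSt.{u}] [UltFactSt.{u}] (hU : IsUlt E b k E' i) (hk : k < rho E (b + 1))
    (ha : a < rho E (b + 1)) : i a < rho E' (i b + 1) := by
  have h1 := max_lt hk ha
  have h2 := h1.trans_le (rho_le E _)
  have h3 : ∀ x ≤ max k a, i x ≤ i (max k a) := fun x hx =>
    (KE.w_le hU.toWeak (hx.trans_lt h2) h2).2 hx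
  refine (h3 a (le_max_right _ _)).trans_lt (lt_rho_of (hU.maps _ h2) fun x hx => ?_)
  obtain ⟨c, z, v, h4, h5, h6⟩ := ult_tree hU hx
  exact named_th_val (hU.maps _ h2) (h5.mono (h3 k (le_max_left _ _))) h6
    (PresSt.pres hU.pm.ls hU.pm'.ls (UltFactSt.cof hU) (KE.le1 h2) h4 (F3.named_of_lt h1 h4))

end Pool.Agent.KM.CU
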