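import Pool.Agent.Lib.MP_5c0be7_lc.L.St
import Pool.Agent.Lib.MP_5c0be7_lc.O.StF3
import Pool.Agent.Lib.MP_5c0be7_lc.O.Api
import Pool.Agent.Lib.MP_5c0be7_lc.O.IsOp
import Pool.Agent.Lib.MP_5c0be7_lc.K.Nm

/-!
Project KM, block F9: two sound premice with core maps into the same premouse are equal.
-/

namespace Pool.Agent.KM

open Ordinal Tr
open scoped Classical

universe u

namespace Key

variable {E : Seq.{u}} {d k k' g : Ordinal.{u}} {s t r x : Tr.{u}} {A B : Tr.{u} → Prop}

theorem named_congr (h : Named E d k A) (e : ∀ q, In k q → (A q ↔ B q)) : Named E d k B :=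
  let ⟨n, h1, h2⟩ := h; ⟨n, h1, fun q hq => (h2 q hq).trans (e q hq)⟩

theorem named_mono (h : Named E d k A) (hk : k' ≤ k) : Named E d k' A :=
  let ⟨n, h1, h2⟩ := h; ⟨n, h1, fun q hq => h2 q (hq.mono hk)⟩

/-- The part of an increasing list from `k` on. -/
noncomputable def cut (k : Ordinal.{u}) : Tr.{u} → Tr.{u}
  | node l s => if l.lab < k then cut k s else node l s
  | _ => .nil

theorem solid_cut (h : Solid E d s) : Solid E d (cut k s) := by
  induction s with
  | nil => exact h
  | leaf a => exact h.elim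
  | node l s _ ih =>
    unfold cut
    split_ifs
    · obtain ⟨g, -, -, -, h1⟩ := h
      exact ih h1
    · exact h

theorem lv_cut (h : Solid E d s) (a : Ordinal.{u}) : a ∈ (cut k s).lv ↔ a ∈ s.lv ∧ k ≤ a := by
  induction s with
  | nil => simp [cut]
  | leaf a => exact h.elim
  | node l s _ ih =>
    obtain ⟨g, rfl, h1, -, h2⟩ := h
    unfold cut
    split_ifs with h3
    · rw [ih h2]
      simp only [lv_node, lv_leaf, Set.mem_union, Set.mem_singleton_iff]
      exact ⟨fun h => ⟨Or.inr h.1, h.2⟩, fun h => ⟨h.1.resolve_left fun e =>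
        absurd h.2 (not_le.2 (e ▸ h3)), h.2⟩⟩
    · refine ⟨fun h => ⟨h, (not_lt.1 h3).trans ?_⟩, fun h => h.1⟩
      rcases h with h | h
      · exact le_of_eq (Set.mem_singleton_iff.1 h).symm
      · exact (h1 a h).le

theorem solid_ext (hs : Solid E d s) (ht : Solid E d t) (h : ∀ a, a ∈ s.lv ↔ a ∈ t.lv) : s = t := by
  induction s generalizing t with
  | leaf a => exact hs.elim
  | nil =>
    cases t with
    | nil => rfl
    | leaf a => exact ht.elim
    | node l t =>
      obtain ⟨g, rfl, -⟩ := ht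
      simpa using h g
  | node l s _ ih =>
    obtain ⟨g, rfl, h1, -, h2⟩ := hs
    cases t with
    | nil => simpa using h g
    | leaf a => exact ht.elim
    | node l t =>
      obtain ⟨g', rfl, h3, -, h4⟩ := ht
      simp only [lv_node, lv_leaf, Set.mem_union, Set.mem_singleton_iff] at h
      have e : g = g' := by
        rcases (h g).1 (Or.inl rfl) with e | e
        · exact e
        · rcases (h g').2 (Or.inl rfl) with e' | e'
          · exact e'.symm
          · exact absurd (h1 _ e') (h3 _ e).asymm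
      subst e
      rw [ih h2 h4 fun a => ⟨fun ha => ((h a).1 (Or.inr ha)).resolve_left (h1 a ha).ne',
        fun ha => ((h a).2 (Or.inr ha)).resolve_left (h3 a ha).ne'⟩]

theorem cut_self (h : Solid E d s) (hk : ∀ a ∈ s.lv, k ≤ a) : cut k s = s :=
  solid_ext (solid_cut h) h fun a => (lv_cut h a).trans (and_iff_left_of_imp (hk a))

/-- The witness of an entry. -/
theorem wit (h : Solid E d s) (hg : g ∈ s.lv) : Named E d g (Th E d (cut (g + 1) s)) := by
  induction s with
  | nil => simp at hg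
  | leaf a => exact h.elim
  | node l s _ ih =>
    obtain ⟨a, rfl, h1, h2, h3⟩ := h
    rcases hg with hg | hg
    · obtain rfl : g = a := hg
      rw [cut, if_pos (by simp), cut_self h3 fun a ha => Order.add_one_le_iff.2 (h1 a ha)]
      exact h2
    · rw [cut, if_pos (by simpa using (h1 g hg).le)]
      exact ih h3 hg

/-- Strictly increasing maps on initial segments with the same image are equal. -/
theorem image_eq {f f' : Ordinal.{u} → Ordinal.{u}} {a a' : Ordinal.{u}}
    (hf : StrictMonoOn f (Set.Iio a)) (hf' : StrictMonoOn f' (Set.Iio a'))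
    (h : ∀ x < a, ∃ y < a', f' y = f x) (h' : ∀ y < a', ∃ x < a, f x = f' y) :
    a = a' ∧ ∀ x < a, f x = f' x := by
  have key : ∀ x, x < a → x < a' → f x = f' x := fun x => by
    induction x using WellFoundedLT.induction with
    | ind x ih =>
      intro h1 h2
      apply le_antisymm
      · obtain ⟨y, h3, h4⟩ := h' x h2
        rcases lt_or_ge y x with h5 | h5
        · rw [ih y h5 h3 (h5.trans h2)] at h4
          exact absurd h4 (hf' (h5.trans h2) h2 h5).ne
        · exact h4 ▸ hf.monotoneOn h1 h3 h5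
      · obtain ⟨y, h3, h4⟩ := h x h1
        rcases lt_or_ge y x with h5 | h5
        · rw [← ih y h5 (h5.trans h1) h3] at h4
          exact absurd h4 (hf (h5.trans h1) h1 h5).ne
        · exact h4 ▸ hf'.monotoneOn h2 h3 h5
  have e : a = a' := by
    rcases lt_trichotomy a a' with h1 | h1 | h1
    · obtain ⟨y, h2, h3⟩ := h' a h1
      rw [key y h2 (h2.trans h1)] at h3
      exact absurd h3 (hf' (h2.trans h1) h1 h2).ne
    · exact h1
    · obtain ⟨y, h2, h3⟩ := h a' h1
      rw [← key y (h2.trans h1) h2] at h3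
      exact absurd h3 (hf (h2.trans h1) h1 h2).ne
  exact ⟨e, fun x hx => key x hx (e ▸ hx)⟩

theorem le_self {f : Ordinal.{u} → Ordinal.{u}} {a : Ordinal.{u}}
    (hf : StrictMonoOn f (Set.Iio d)) (ha : a < d) : a ≤ f a := by
  induction a using WellFoundedLT.induction with
  | ind a ih =>
    by_contra hlt
    have hlt := not_le.1 hlt
    exact absurd (hf (hlt.trans ha) ha hlt) (not_lt.2 (ih _ hlt (hlt.trans ha)))

/-- What the image of a standard parameter satisfies in the target. -/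
structure Dat (E : Seq.{u}) (d k : Ordinal.{u}) (s : Tr.{u}) : Prop where
  mem : In d s
  lt : k < d
  lim : ¬ Suc k
  ge : ∀ a ∈ s.lv, k ≤ a
  solid : Solid E d s
  new : ¬ Named E d k (Th E d s)
  old : ∀ a < k, Named E d a (Th E d s)

section One

variable [NamedSt.{u}]

/-- A section of a named theory is named. -/
theorem named_cons (hk : k < d) (hx : In k x) (hr : In d r) (h : Named E d k (Th E d r)) :
    Named E d k (Th E d (node x r)) := by
  have I := IsOp.id.{u}
  obtain ⟨a, ha⟩ := I.snd.fst.fst.pair (I.snd.fst.snd.pair I.snd.snd)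
  obtain ⟨c, hc⟩ := (IsOp.cmp a I.fst.fst (IsOp.const (erase_of_lv (lv_opc .nil)))).pair
    (I.fst.snd.pair I.snd)
  refine named_congr (NamedSt.pre E d k k _ c x hk (hx.ht_le.trans_lt hk) h
    fun q hq => In.bop (by simp [hq, hx]) c) fun q hq => ?_
  simp only [hc, ThL, fst_node, snd_node]
  rw [ev_pre _ _ (by simp [(hq.snd.mono hk.le), hx.mono hk.le, hr]), ha]
  simp

theorem named_up (h : Solid E d s) (hs : In d s) (hk : k < d)
    (hn : Named E d k (Th E d (cut k s))) : Named E d k (Th E d s) := by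
  induction s with
  | nil => exact hn
  | leaf a => exact h.elim
  | node l s _ ih =>
    obtain ⟨a, rfl, -, -, h3⟩ := h
    unfold cut at hn
    split_ifs at hn with h4
    · exact named_cons hk (by simpa using h4) hs.snd (ih h3 hs.snd hn)
    · exact hn

theorem no_diff (hs : Dat E d k s) (ht : Dat E d k' t) (h1 : g ∈ s.lv) (h2 : g ∉ t.lv)
    (h3 : ∀ a, g < a → (a ∈ s.lv ↔ a ∈ t.lv)) : False := by
  rcases le_or_gt k' g with h | h
  · have e : cut (g + 1) s = cut g t := solid_ext (solid_cut hs.solid) (solid_cut ht.solid) fun a => by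
      rw [lv_cut hs.solid, lv_cut ht.solid, Order.add_one_le_iff]
      exact ⟨fun h => ⟨(h3 a h.2).1 h.1, h.2.le⟩, fun h =>
        have h4 : g < a := lt_of_le_of_ne h.2 fun e => h2 (e ▸ h.1)
        ⟨(h3 a h4).2 h.1, h4⟩⟩
    exact ht.new (named_mono (named_up ht.solid ht.mem (hs.mem g h1) (e ▸ wit hs.solid h1)) h)
  · have h4 : g + 1 < k' := not_suc_iff.1 ht.lim g h
    have e : cut (g + 1) s = t := solid_ext (solid_cut hs.solid) ht.solid fun a => by
      rw [lv_cut hs.solid, Order.add_one_le_iff]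
      exact ⟨fun h => (h3 a h.2).1 h.1, fun h5 =>
        have h6 : g < a := h.trans_le (ht.ge a h5)
        ⟨(h3 a h6).2 h5, h6⟩⟩
    exact hs.new (named_mono (named_up hs.solid hs.mem (h4.trans ht.lt) (e ▸ ht.old _ h4))
      ((hs.ge g h1).trans le_self_add))

theorem dat_eq (hs : Dat E d k s) (ht : Dat E d k' t) : s = t ∧ k = k' := by
  have e : s = t := by
    refine solid_ext hs.solid ht.solid (not_not.1 fun hne => ?_)
    have hf : {a | ¬ (a ∈ s.lv ↔ a ∈ t.lv)}.Finite :=
      ((lv_finite s).union (lv_finite t)).subset fun a ha => by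
        by_contra h
        simp only [Set.mem_union, not_or] at h
        exact ha (iff_of_false h.1 h.2)
    obtain ⟨g, h1, h2⟩ := hf.exists_maximal (not_forall.1 hne)
    have h3 : ∀ a, g < a → (a ∈ s.lv ↔ a ∈ t.lv) := fun a ha =>
      not_not.1 fun h => absurd (h2 h ha.le) (not_le.2 ha)
    by_cases h4 : g ∈ s.lv
    · exact no_diff hs ht h4 (fun h5 => h1 (iff_of_true h4 h5)) h3
    · exact no_diff ht hs (not_not.1 fun h5 => h1 (iff_of_false h4 h5)) h4 fun a ha => (h3 a ha).symm
  subst e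
  refine ⟨rfl, ?_⟩
  rcases lt_trichotomy k k' with h | h | h
  · exact absurd (ht.old k h) hs.new
  · exact h
  · exact absurd (hs.old k' h) ht.new

end One

section Map

variable {E0 : Seq.{u}} {b0 b : Ordinal.{u}} {i : Ordinal.{u} → Ordinal.{u}} {p : Tr.{u}}

theorem ev_core (h : CoreMap E0 b0 E b i) (hp : In (b0 + 1) p) {v : Tr.{u}}
    (hv : In (rho E0 (b0 + 1)) v) (c : Tr.{u}) : ev E (b + 1) c (node v (p.map i)) =
      (ev E0 (b0 + 1) c (node v p)).map (Tr.map i) := by
  rw [← h.commTop c _ ((in_node _ _ _).2 ⟨hv.mono (rho_le _ _), hp⟩), map_node,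
    map_eq_self fun a ha => h.fix a (hv a ha)]

theorem range_core (h : CoreMap E0 b0 E b i) (hp : SS E0 (b0 + 1) p) (y : Ordinal.{u}) :
    (∃ x < b0 + 1, i x = y) ↔ ∃ c v, In (rho E0 (b0 + 1)) v ∧
      ev E (b + 1) c (node v (p.map i)) = some (leaf y) := by
  constructor
  · rintro ⟨x, h1, rfl⟩
    obtain ⟨c, v, h2, h3⟩ := hp.2.2.2 (leaf x) (by simpa using h1)
    exact ⟨c, v, h2, by rw [ev_core h hp.1 h2, h3]; rfl⟩
  · rintro ⟨c, v, h1, h2⟩
    rw [ev_core h hp.1 h1] at h2
    obtain ⟨w, h3, h4⟩ := Option.map_eq_some_iff.1 h2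
    obtain ⟨x, rfl, h5⟩ := map_eq_leaf.1 h4
    exact ⟨x, by simpa using ev_in h3, h5⟩

theorem solid_map [PresSt.{u}] (h : CoreMap E0 b0 E b i) (hp : In (b0 + 1) p)
    (hs : Solid E0 (b0 + 1) p) : Solid E (b + 1) (p.map i) := by
  induction p with
  | nil => trivial
  | leaf a => exact hs.elim
  | node l s _ ih =>
    obtain ⟨g, rfl, h1, h2, h3⟩ := hs
    have hg : g < b0 + 1 := by simpa using hp.fst
    refine ⟨i g, rfl, fun a ha => ?_, PresSt.pres h.pm.ls h.pm'.ls h.toCof
      (Order.lt_add_one_iff.1 hg) hp.snd h2, ih hp.snd h3⟩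
    rw [lv_map] at ha
    obtain ⟨x, hx, rfl⟩ := ha
    exact h.mono hg (hp.snd x hx) (h1 x hx)

theorem dat_core [PresSt.{u}] [DiagSt.{u}] (h : CoreMap E0 b0 E b i) (hp : SS E0 (b0 + 1) p) :
    Dat E (b + 1) (rho E0 (b0 + 1)) (p.map i) := by
  have th : ∀ q, In (rho E0 (b0 + 1)) q → (Th E (b + 1) (p.map i) q ↔ Th E0 (b0 + 1) p q) :=
    fun q hq => by simp only [ThL]; rw [ev_core h hp.1 hq.snd, Option.isSome_map]
  refine ⟨KN.in_map' h.maps hp.1, ?_, DiagSt.rho_lim _ _, fun a ha => ?_, solid_map h hp.1 hp.2.2.1,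
    fun hn => DiagSt.diag _ _ _ _ hp.2.2.2 (named_congr (h.pp _ hn) th), fun a ha => ?_⟩
  · exact ((DiagSt.rho_top _ _).trans (le_self h.mono (lt_add_one b0))).trans_lt
      (h.maps b0 (lt_add_one b0))
  · rw [lv_map] at ha
    obtain ⟨x, hx, rfl⟩ := ha
    exact (hp.2.1 x hx).trans (le_self h.mono (hp.1 x hx))
  · obtain ⟨n, h1, h2⟩ := DiagSt.named_of_lt _ _ _ _ ha hp.1
    refine ⟨n.map i, KN.in_map' h.maps h1, fun q hq => ?_⟩
    have hq' := hq.mono ha.le
    have h3 := KN.wnm h.toWeak h1 (hq'.mono (rho_le _ _))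
    rw [map_eq_self (t := q) fun x hx => h.fix x (hq' x hx)] at h3
    exact h3.trans ((h2 q hq).trans (th q hq').symm)

end Map

end Key

open Key in
instance [PresSt.{u}] [DiagSt.{u}] [NamedSt.{u}] [AgreeSt.{u}] : KeySt.{u} := ⟨by
  intro E0 E1 E b0 b1 b i j h0 h1
  obtain ⟨p, hp⟩ := h0.sound.1
  obtain ⟨q, hq⟩ := h1.sound.1
  obtain ⟨e1, e2⟩ := dat_eq (dat_core h0 hp) (dat_core h1 hq)
  have hr : ∀ y, (∃ x < b0 + 1, i x = y) ↔ ∃ x < b1 + 1, j x = y := fun y => by
    rw [range_core h0 hp, range_core h1 hq, e1, e2]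
  obtain ⟨e3, e4⟩ := image_eq h0.mono h1.mono (fun x hx => (hr _).1 ⟨x, hx, rfl⟩)
    fun x hx => (hr _).2 ⟨x, hx, rfl⟩
  obtain rfl : b0 = b1 := Order.succ_injective e3
  refine ⟨rfl, AgreeSt.of_ev h0.pm h1.pm fun a ha => ?_,
    fun x hx => e4 x (Order.lt_add_one_iff.2 hx)⟩
  funext c x
  by_cases hx : In a x
  swap
  · rw [ev_guard hx, ev_guard hx]
  have h2 := h0.comm a ha c x hx
  rw [e4 a ha, KN.map_eq e4 (hx.mono ha.le), h1.comm a ha c x hx] at h2
  cases h3 : ev E0 a c x with
  | none => rw [h3] at h2; exact (Option.map_eq_none_iff.1 h2).symm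
  | some w =>
    rw [h3] at h2
    obtain ⟨w', h4, h5⟩ := Option.map_eq_some_iff.1 h2
    have h6 := (ev_in h3).mono ha.le
    have h7 := (ev_in h4).mono ha.le
    rw [KN.map_eq e4 h6] at h5
    rw [h4, (map_inj (h1.mono.injOn.mono (Set.union_subset h7 h6))).1 h5]⟩

end Pool.Agent.KM
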