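import Pool.Agent.Lib.MP_5c0be7_lc.C.Easy
import Pool.Agent.Lib.MP_5c0be7_lc.C.Key

/-!
Project KM, block F9: uniqueness of premice that are sound above an ordinal; maps onto sound
premice.
-/

set_option autoImplicit false

namespace Pool.Agent.KM

open Ordinal Tr
open scoped Classical

universe u

/-- Level `d` is generated by `l` and the solid parameter `p` above `l`. -/
structure KS (E : Seq.{u}) (d l : Ordinal.{u}) (p : Tr.{u}) : Prop where
  mem : In d p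
  ge : ∀ a ∈ p.lv, l ≤ a
  solid : Solid E d p
  gen : Gen E d l p

namespace CU

variable {E E0 E1 E' : Seq.{u}} {b b0 b1 b' d l g : Ordinal.{u}}
  {i j : Ordinal.{u} → Ordinal.{u}} {p q s t : Tr.{u}}

theorem KS.of_ss (h : SS E d p) (hl : rho E d ≤ l) (hd : l ≤ d) : KS E d l (Key.cut l p) :=
  ⟨h.1.of_subset fun a ha => ((Key.lv_cut h.2.2.1 a).1 ha).1,
    fun a ha => ((Key.lv_cut h.2.2.1 a).1 ha).2, Key.solid_cut h.2.2.1,
    F3.gen_change h.2.2.2 hl hd (h.1.of_subset fun a ha => ((Key.lv_cut h.2.2.1 a).1 ha).1)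
      fun a ha => (lt_or_ge a l).imp id fun h1 => (Key.lv_cut h.2.2.1 a).2 ⟨ha, h1⟩⟩

theorem KS.of_ss' (h : SS E d p) : KS E d (rho E d) p := ⟨h.1, h.2.1, h.2.2.1, h.2.2.2⟩

/-- The largest difference of two solid lists does not lie above a new set. -/
theorem no_diff' (hs : Solid E d s) (ht : Solid E d t) (hs' : In d s) (ht' : In d t)
    (h1 : g ∈ s.lv) (h2 : g ∉ t.lv) (h3 : ∀ a, g < a → (a ∈ s.lv ↔ a ∈ t.lv)) :
    Named E d g (Th E d t) := by
  have e : Key.cut (g + 1) s = Key.cut g t :=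
    Key.solid_ext (Key.solid_cut hs) (Key.solid_cut ht) fun a => by
      rw [Key.lv_cut hs, Key.lv_cut ht, Order.add_one_le_iff]
      exact ⟨fun h => ⟨(h3 a h.2).1 h.1, h.2.le⟩, fun h =>
        have h4 : g < a := lt_of_le_of_ne h.2 fun e => h2 (e ▸ h.1)
        ⟨(h3 a h4).2 h.1, h4⟩⟩
  exact Key.named_up ht ht' (hs' g h1) (e ▸ Key.wit hs h1)

theorem exists_diff (h : s ≠ t) (hs : Solid E d s) (ht : Solid E d t) :
    ∃ g, ¬ (g ∈ s.lv ↔ g ∈ t.lv) ∧ ∀ a, g < a → (a ∈ s.lv ↔ a ∈ t.lv) := by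
  have hne : ¬ ∀ a, a ∈ s.lv ↔ a ∈ t.lv := fun k => h (Key.solid_ext hs ht k)
  have hf : {a | ¬ (a ∈ s.lv ↔ a ∈ t.lv)}.Finite :=
    ((lv_finite s).union (lv_finite t)).subset fun a ha => by
      by_contra h
      simp only [Set.mem_union, not_or] at h
      exact ha (iff_of_false h.1 h.2)
  obtain ⟨g, h1, h2⟩ := hf.exists_maximal (not_forall.1 hne)
  exact ⟨g, h1, fun a ha => not_not.1 fun h => absurd (h2 h ha.le) (not_le.2 ha)⟩

theorem solid_eq (hs : Solid E d s) (ht : Solid E d t) (hs' : In d s) (ht' : In d t)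
    (gs : ∀ a ∈ s.lv, l ≤ a) (gt : ∀ a ∈ t.lv, l ≤ a) (ns : ¬ Named E d l (Th E d s))
    (nt : ¬ Named E d l (Th E d t)) : s = t := by
  by_contra h
  obtain ⟨g, h1, h2⟩ := exists_diff h hs ht
  by_cases h4 : g ∈ s.lv
  · exact nt (named_down (no_diff' hs ht hs' ht' h4 (fun h5 => h1 (iff_of_true h4 h5)) h2) (gs g h4))
  · have h5 : g ∈ t.lv := not_not.1 fun h5 => h1 (iff_of_false h4 h5)
    exact ns (named_down (no_diff' ht hs ht' hs' h5 h4 fun a ha => (h2 a ha).symm) (gt g h5))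

theorem range_gen (h : Strong E0 b0 E d i) (hl : l ≤ b0) (hf : ∀ x < l, i x = x) (hp : In b0 p)
    (hg : Gen E0 b0 l p) (y : Ordinal.{u}) :
    (∃ x < b0, i x = y) ↔ ∃ c v, In l v ∧ ev E d c (node v (p.map i)) = some (leaf y) := by
  have e : ∀ c v, In l v → ev E d c (node v (p.map i)) = (ev E0 b0 c (node v p)).map (Tr.map i) :=
    fun c v hv => by
      rw [← h.commTop c _ ((in_node _ _ _).2 ⟨hv.mono hl, hp⟩), map_node, map_fix hf hv]
  constructor
  · rintro ⟨x, h1, rfl⟩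
    obtain ⟨c, v, h2, h3⟩ := hg (leaf x) (by simpa using h1)
    exact ⟨c, v, h2, by rw [e c v h2, h3]; rfl⟩
  · rintro ⟨c, v, h1, h2⟩
    rw [e c v h1] at h2
    obtain ⟨w, h3, h4⟩ := Option.map_eq_some_iff.1 h2
    obtain ⟨x, rfl, h5⟩ := map_eq_leaf.1 h4
    exact ⟨x, by simpa using ev_in h3, h5⟩

theorem ev_eq_of_weak {d0 d1 a : Ordinal.{u}} (h0 : Weak E0 d0 E d i) (h1 : Weak E1 d1 E d j)
    (ha0 : a < d0) (ha1 : a < d1) (e : ∀ x ≤ a, i x = j x) : ev E0 a = ev E1 a := by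
  funext c x
  by_cases hx : In a x
  swap
  · rw [ev_guard hx, ev_guard hx]
  have e' : ∀ {w : Tr.{u}}, In a w → w.map i = w.map j := fun hw =>
    map_congr fun y hy => e y (hw y hy).le
  have h2 := h0.comm a ha0 c x hx
  rw [e a le_rfl, e' hx, h1.comm a ha1 c x hx] at h2
  cases h3 : ev E0 a c x with
  | none => rw [h3] at h2; exact (Option.map_eq_none_iff.1 h2).symm
  | some w =>
    rw [h3] at h2
    obtain ⟨w', h4, h5⟩ := Option.map_eq_some_iff.1 h2
    rw [e' (ev_in h3)] at h5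
    rw [h4, (map_inj (h1.mono.injOn.mono
      (Set.union_subset ((ev_in h4).mono ha1.le) ((ev_in h3).mono ha1.le)))).1 h5]

/-- Strong maps with the same range are equal. -/
theorem eq_of_range [AgreeSt.{u}] (p0 : PM0 E0 (b0 + 1)) (p1 : PM0 E1 (b1 + 1))
    (h0 : Weak E0 (b0 + 1) E d i) (h1 : Weak E1 (b1 + 1) E d j)
    (hr : ∀ y, (∃ x < b0 + 1, i x = y) ↔ ∃ x < b1 + 1, j x = y) :
    b0 = b1 ∧ Agree E0 E1 (b0 + 1) ∧ ∀ x ≤ b0, i x = j x := by
  obtain ⟨e3, e4⟩ := Key.image_eq h0.mono h1.mono (fun x hx => (hr _).1 ⟨x, hx, rfl⟩)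
    fun x hx => (hr _).2 ⟨x, hx, rfl⟩
  obtain rfl : b0 = b1 := KE.s1inj e3
  exact ⟨rfl, AgreeSt.of_ev p0 p1 fun a ha => ev_eq_of_weak h0 h1 ha ha
    fun x hx => e4 x (hx.trans_lt ha), fun x hx => e4 x (KE.lt1 hx)⟩

theorem new_map (h : Strong E0 b0 E d i) (hl : l ≤ b0) (hf : ∀ x < l, i x = x)
    (hP : PP E0 b0 E d l) (hp : In b0 p) (hn : ¬ Named E0 b0 l (Th E0 b0 p)) :
    ¬ Named E d l (Th E d (p.map i)) := fun k =>
  hn (Named.congr' (hP _ k) fun _ hq => th_map h hl hf hp hq)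

theorem ge_map (h : Weak E0 b0 E d i) (hp : In b0 p) (hg : ∀ a ∈ p.lv, l ≤ a) :
    ∀ a ∈ (p.map i).lv, l ≤ a := fun a ha => by
  rw [lv_map] at ha
  obtain ⟨x, hx, rfl⟩ := ha
  exact (hg x hx).trans (KE.w_self h (hp x hx))

/-- Two premice that are sound above `l`, with maps above `l` into the same premouse. -/
theorem keyk [PresSt.{u}] [AgreeSt.{u}] (p0 : PM0 E0 (b0 + 1)) (p1 : PM0 E1 (b1 + 1))
    (pm : LS E (b + 1)) (k0 : KS E0 (b0 + 1) l p) (k1 : KS E1 (b1 + 1) l q)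
    (l0 : l ≤ b0 + 1) (l1 : l ≤ b1 + 1) (h0 : Cof E0 b0 E b i) (h1 : Cof E1 b1 E b j)
    (f0 : ∀ x < l, i x = x) (f1 : ∀ x < l, j x = x) (P0 : PP E0 (b0 + 1) E (b + 1) l)
    (P1 : PP E1 (b1 + 1) E (b + 1) l) :
    b0 = b1 ∧ Agree E0 E1 (b0 + 1) ∧ ∀ x ≤ b0, i x = j x := by
  have e := solid_eq (solid_map p0.ls pm h0 k0.mem k0.solid) (solid_map p1.ls pm h1 k1.mem k1.solid)
    (KE.w_in h0.toWeak k0.mem) (KE.w_in h1.toWeak k1.mem) (ge_map h0.toWeak k0.mem k0.ge)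
    (ge_map h1.toWeak k1.mem k1.ge) (new_map h0.toStrong l0 f0 P0 k0.mem (F3.diag k0.gen))
    (new_map h1.toStrong l1 f1 P1 k1.mem (F3.diag k1.gen))
  exact eq_of_range p0 p1 h0.toWeak h1.toWeak fun y => by
    rw [range_gen h0.toStrong l0 f0 k0.mem k0.gen, range_gen h1.toStrong l1 f1 k1.mem k1.gen, e]

/-- A core map and a map above `l` from an `l`-sound premouse: the projectum is at most `l`. -/
theorem rho_le_of_ks [PresSt.{u}] (p0 : LS E0 (b0 + 1)) (k0 : KS E0 (b0 + 1) l p)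
    (l0 : l ≤ b0 + 1) (h0 : Cof E0 b0 E b i) (f0 : ∀ x < l, i x = x)
    (P0 : PP E0 (b0 + 1) E (b + 1) l) (h1 : CoreMap E1 b1 E b j) : rho E1 (b1 + 1) ≤ l := by
  by_contra hl
  have hl := not_le.1 hl
  obtain ⟨q, hq⟩ := h1.sound.1
  have D := Key.dat_core h1 hq
  have s1 := solid_map p0 h1.pm'.ls h0 k0.mem k0.solid
  have s2 := KE.w_in h0.toWeak k0.mem
  have s3 := new_map h0.toStrong l0 f0 P0 k0.mem (F3.diag k0.gen)
  by_cases e : p.map i = q.map j
  · exact s3 (e ▸ D.old l hl)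
  obtain ⟨g, h2, h3⟩ := exists_diff e s1 D.solid
  by_cases h4 : g ∈ (p.map i).lv
  · have h5 : g ∉ (q.map j).lv := fun h5 => h2 (iff_of_true h4 h5)
    rcases le_or_gt (rho E1 (b1 + 1)) g with h | h
    · exact D.new (named_down (no_diff' s1 D.solid s2 D.mem h4 h5 h3) h)
    · have h6 := not_suc_iff.1 D.lim g h
      have e : Key.cut (g + 1) (p.map i) = q.map j :=
        Key.solid_ext (Key.solid_cut s1) D.solid fun a => by
          rw [Key.lv_cut s1, Order.add_one_le_iff]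
          exact ⟨fun h => (h3 a h.2).1 h.1, fun h5 =>
            have h6 : g < a := h.trans_le (D.ge a h5)
            ⟨(h3 a h6).2 h5, h6⟩⟩
      exact s3 (named_down (Key.named_up s1 s2 (h6.trans D.lt) (e ▸ D.old _ h6))
        ((ge_map h0.toWeak k0.mem k0.ge g h4).trans le_self_add))
  · have h5 : g ∈ (q.map j).lv := not_not.1 fun h5 => h2 (iff_of_false h4 h5)
    exact s3 (named_down (no_diff' D.solid s1 D.mem s2 h5 h4 fun a ha => (h3 a ha).symm)
      (hl.le.trans (D.ge g h5)))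

/-- An `l`-sound premouse and a sound premouse with maps above `l` and above the projectum. -/
theorem keyk_core [PresSt.{u}] [AgreeSt.{u}] (p0 : PM0 E0 (b0 + 1)) (k0 : KS E0 (b0 + 1) l p)
    (l0 : l ≤ b0 + 1) (l1 : l ≤ b1 + 1) (h0 : Cof E0 b0 E b i) (f0 : ∀ x < l, i x = x)
    (P0 : PP E0 (b0 + 1) E (b + 1) l) (h1 : CoreMap E1 b1 E b j) (f1 : ∀ x < l, j x = x)
    (P1 : PP E1 (b1 + 1) E (b + 1) l) :
    b0 = b1 ∧ Agree E0 E1 (b0 + 1) ∧ ∀ x ≤ b0, i x = j x :=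
  let ⟨_, hq⟩ := h1.sound.1
  keyk p0 h1.pm h1.pm'.ls k0 (KS.of_ss hq (rho_le_of_ks p0.ls k0 l0 h0 f0 P0 h1) l1) l0 l1 h0
    h1.toCof f0 f1 P0 P1

/-- Generation of a point from smaller points comes down along strong maps. -/
theorem gen_down (h : Strong E (b + 1) E' (b' + 1) i) (hE' : ∃ p, SS E' b' p) (hg : g ≤ b)
    (hs : In (b + 1) s) {c v : Tr.{u}} (hv : In (i g) v)
    (he : ev E' (b' + 1) c (node v (s.map i)) = some (leaf (i g))) :
    ∃ w, In g w ∧ ev E (b + 1) c (node w s) = some (leaf g) := by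
  obtain ⟨o, ho⟩ : IsOp.{u} fun t => if tv (t.fst = t.snd.snd.fst) = .nil then
      tv (∃ a, t.fst = leaf a ∧ In a t.snd.fst) else Tr.one :=
    (IsOp.id.fst.eq IsOp.id.snd.snd.fst).ite_nil (IsOp.id.fst.bd IsOp.id.snd.fst)
      (IsOp.nil.pair IsOp.nil)
  have key : ∀ (E : Seq.{u}) d g v s, (ev E d (cmp o (tst .id) (prec (.pair .fst .ss) c))
      (node v (node (leaf g) s))).isSome ↔
      g < d ∧ In g v ∧ ev E d c (node v s) = some (leaf g) := fun E d g v s => by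
    by_cases i1 : In d (node v (node (leaf g) s))
    · rw [ev_cmp, ev_prec _ _ i1]
      simp only [bop_pair, bop_fst, bop_ss, fst_node, snd_node]
      cases h1 : ev E d c (node v s) with
      | none => simp
      | some w =>
        rw [Option.bind_some, ev_tst_isSome _ (In.bop (by simp [ev_in h1, i1]) o), ho]
        have hg : g < d := by simpa using i1.snd.fst
        by_cases h2 : w = leaf g <;> simp [h2, hg]
    · rw [ev_guard i1]
      refine iff_of_false (by simp) fun ⟨h1, _, h3⟩ => i1 ?_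
      have := in_of_ev_eq h3
      simp only [in_node, in_leaf] at this ⊢
      exact ⟨this.1, h1, this.2⟩
  have h1 := ev_exs_complete hE' ((key E' _ _ v _).2 ⟨h.maps g (KE.lt1 hg), hv, he⟩)
  rw [← map_leaf, ← map_node, strong_isSome h _ (by simp [hs, KE.lt1 hg])] at h1
  obtain ⟨w, hw⟩ := Option.isSome_iff_exists.1 h1
  exact ⟨w, ((key E _ _ _ _).1 (ev_exs_sound hw)).2⟩

/-- A strong map above the projectum into a sound premouse that adds no subsets is onto. -/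
theorem uns (h : Strong E (b + 1) E' (b' + 1) i) (hE' : LS E' (b' + 1)) (hr : rho E (b + 1) ≤ l)
    (hl : l ≤ b) (hf : ∀ x < l, i x = x) (hP : PP E (b + 1) E' (b' + 1) l)
    (hs : ∃ p, SS E' (b' + 1) p) : ∀ y ≤ b', ∃ x ≤ b, i x = y := by
  obtain ⟨p, hp⟩ := hs
  have hl1 : l ≤ b + 1 := hl.trans le_self_add
  obtain ⟨x0, hx0, n0⟩ : ∃ x, In (b + 1) x ∧ ¬ Named E (b + 1) l (Th E (b + 1) x) := by
    rcases F3.rho_cases E (b + 1) with h2 | ⟨x, h2, h3⟩
    · exact absurd (h2 ▸ F3.rho_top E b) (not_le.2 (lt_add_one b))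
    · exact ⟨x, h2, fun k => h3 (named_down k hr)⟩
  have hr' : rho E' (b' + 1) ≤ l := F3.rho_le_of (KE.w_in h.toWeak hx0) (new_map h hl1 hf hP hx0 n0)
  have hl2 : l ≤ b' + 1 := (hl.trans (KE.w_self h.toWeak (lt_add_one b))).trans
    (h.maps b (lt_add_one b)).le
  have K := KS.of_ss hp hr' hl2
  generalize Key.cut l p = p' at K
  have main : ∀ r, In (b' + 1) r → Solid E' (b' + 1) r → (∀ a ∈ r.lv, l ≤ a) →
      (∀ a ∈ r.lv, ∀ s : Tr.{u}, In (b' + 1) s → (∀ x ∈ r.lv, a < x → x ∈ s.lv) →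
        Gen E' (b' + 1) (a + 1) s) → ∃ r0, In (b + 1) r0 ∧ r0.map i = r := by
    intro r
    induction r with
    | nil => exact fun _ _ _ _ => ⟨.nil, in_nil _, rfl⟩
    | leaf a => exact fun _ k => k.elim
    | node a r _ ih =>
      rintro m1 ⟨g, rfl, m2, m3, m4⟩ m5 m6
      obtain ⟨r0, r1, rfl⟩ := ih m1.snd m4 (fun a ha => m5 a (Or.inr ha))
        fun a ha s k1 k2 => m6 a (Or.inr ha) s k1 fun x hx hax => k2 x
          (hx.resolve_left fun e => (m2 a ha).asymm (by rwa [show x = g from e] at hax)) hax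
      have hg : g < b' + 1 := by simpa using m1.fst
      have s0 : b + 1 ∈ {a | a ≤ b + 1 ∧ ∃ x, In a x ∧
          ¬ Named E (b + 1) l (Th E (b + 1) (node x r0))} := ⟨le_rfl, x0, hx0, fun k => n0
        (named_th_val (c := opc .fs) (KE.lt1 hl) (in_nil _) (ev_opc _ (by simp [hx0, r1])) k)⟩
      obtain ⟨s1, x, s2, s3⟩ := csInf_mem (Set.nonempty_of_mem s0)
      have hx : In (b + 1) x := s2.mono s1
      have s4 : ¬ In g (x.map i) := fun k => new_map h hl1 hf hP (p := node x r0)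
        (by simp [hx, r1]) s3 (named_down (Key.named_cons hg k m1.snd m3) (m5 g (Or.inl rfl)))
      obtain ⟨g0, s5, s6⟩ := (ht_cases x).resolve_left fun k =>
        s4 (by rw [map_of_lv k.1]; exact in_of_lv k.1 _)
      have s7 : g0 < b + 1 := hx g0 s5
      have s8 : In (g0 + 1) x := s6 ▸ in_ht x
      have s9 : g ≤ i g0 := not_lt.1 fun k => s4 (KE.in_map fun z hz =>
        ((KE.w_le h.toWeak (hx z hz) s7).2 (KE.le1 (s8 z hz))).trans_lt k)
      rcases s9.eq_or_lt with e | e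
      · exact ⟨node (leaf g0) r0, by simp [s7, r1], by simp [e]⟩
      obtain ⟨c, v, t1, t2⟩ := m6 g (Or.inl rfl) (r0.map i) m1.snd
        (fun x hx hax => hx.resolve_left fun e => lt_irrefl _ (by rwa [show x = g from e] at hax))
        (leaf (i g0)) (by simpa using h.maps g0 s7)
      obtain ⟨w, t3, t4⟩ := gen_down h (hE' b' (lt_add_one b')).1 (KE.le1 s7) r1
        (t1.mono (Order.add_one_le_iff.2 e)) t2
      refine absurd (s2 g0 s5) (not_lt.2 (csInf_le' ⟨s7.le, node (Tr.enc (leaf g0) x) w,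
        by simp [t3, s8.enc], fun k => s3 ?_⟩))
      refine named_th_val (v := .nil) (c := postc (.pair (.comp .dec (.pair .fst
        (.comp .ff .ss))) (.comp .snd .ss)) (prec (.pair (.comp .sf .snd) .ss) c))
        (KE.lt1 hl) (in_nil _) ?_ k
      rw [ev_postc, ev_prec _ _ (by simp [r1, (t3.mono s7.le), s8.enc.mono s7.le])]
      simp [t4]
  obtain ⟨r0, r1, rfl⟩ := main p' K.mem K.solid K.ge fun a ha s k1 k2 =>
    F3.gen_change K.gen ((K.ge a ha).trans le_self_add) (Order.add_one_le_iff.2 (K.mem a ha)) k1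
      fun x hx => (le_or_gt x a).imp KE.lt1 (k2 x hx)
  intro y hy
  obtain ⟨c, v, t1, t2⟩ := K.gen (leaf y) (by simpa using KE.lt1 hy)
  rw [← map_fix hf t1, ← map_node, h.commTop c _ (by simp [r1, t1.mono hl1])] at t2
  obtain ⟨w, h3, h4⟩ := Option.map_eq_some_iff.1 t2
  obtain ⟨x, rfl, h5⟩ := map_eq_leaf.1 h4
  exact ⟨x, KE.le1 (by simpa using ev_in h3), h5⟩

/-- A map onto is the identity. -/
theorem eq_of_onto [AgreeSt.{u}] (p0 : PM0 E (b + 1)) (p1 : PM0 E' (b' + 1))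
    (h : Weak E (b + 1) E' (b' + 1) i) (ho : ∀ y ≤ b', ∃ x ≤ b, i x = y) :
    b = b' ∧ Agree E E' (b + 1) ∧ ∀ x ≤ b, i x = x :=
  eq_of_range p0 p1 h KE.strong_id.toWeak fun y =>
    ⟨fun ⟨x, h1, h2⟩ => ⟨y, h2 ▸ h.maps x h1, rfl⟩, fun ⟨x, h1, h2⟩ =>
      let ⟨z, h3, h4⟩ := ho x (KE.le1 h1); ⟨z, KE.lt1 h3, h4.trans h2⟩⟩

end CU

end Pool.Agent.KM
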