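import Pool.Agent.Lib.MP_5c0be7_lc.O.Basic
import Pool.Agent.Lib.MP_5c0be7_lc.O.Pm

/-!
Project KM, blocks F6, F7, F9: preservation of witnesses, close embeddings, uniqueness of cores.
Definitions and statements.
-/

set_option autoImplicit false

namespace Pool.Agent.KM

open Ordinal Tr
open scoped Classical

universe u

/-- `A` is defined at level `d`, on the stratum `k`, by one code and a parameter. -/
def Def1 (E : Seq.{u}) (d k : Ordinal.{u}) (A : Tr.{u} → Prop) : Prop :=
  ∃ c z, In d z ∧ ∀ q, In k q → (A q ↔ (ev E d c (node q z)).isSome)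

/-- Close embedding: the theory of a point of the target over the range is a section of the
theory of the source. -/
structure Close (E : Seq.{u}) (d : Ordinal.{u}) (E' : Seq.{u}) (d' : Ordinal.{u})
    (j : Ordinal.{u} → Ordinal.{u}) : Prop extends Strong E d E' d' j where
  wrap : ∀ x, In d' x → ∃ (a : Op) (w : Tr.{u}), In d w ∧ ∀ c z, In d z →
    ((ev E' d' c (node x (z.map j))).isSome ↔ (ev E d (bop a c) (node z w)).isSome)

/-- Strong embedding of `(E, b + 1)` in `(E', b' + 1)` that is cofinal in the projectum of `b'`. -/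
structure Cof (E : Seq.{u}) (b : Ordinal.{u}) (E' : Seq.{u}) (b' : Ordinal.{u})
    (j : Ordinal.{u} → Ordinal.{u}) : Prop extends Strong E (b + 1) E' (b' + 1) j where
  cof : ∀ y < rho E' b', ∃ x < rho E b, y ≤ j x

/-- `(E', d')` has no subsets of the stratum `k` that are missing in `(E, d)`. -/
def PP (E : Seq.{u}) (d : Ordinal.{u}) (E' : Seq.{u}) (d' k : Ordinal.{u}) : Prop :=
  ∀ A, Named E' d' k A → Named E d k A

/-- Sets defined over `(E', d')` on the strata up to `k` are defined over `(E, d)`. -/
def Pull (E : Seq.{u}) (d : Ordinal.{u}) (E' : Seq.{u}) (d' k : Ordinal.{u}) : Prop :=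
  ∀ k' ≤ k, ∀ A, Def1 E' d' k' A → Def1 E d k' A

/-- `j` maps the sound premouse `(E, b + 1)` into `(E', b' + 1)` like an iteration map above the
projectum. -/
structure CoreMap (E : Seq.{u}) (b : Ordinal.{u}) (E' : Seq.{u}) (b' : Ordinal.{u})
    (j : Ordinal.{u} → Ordinal.{u}) : Prop extends Cof E b E' b' j where
  pm : PM0 E (b + 1)
  pm' : PM0 E' (b' + 1)
  sound : Lev E (b + 1)
  fix : ∀ x < rho E (b + 1), j x = x
  pp : PP E (b + 1) E' (b' + 1) (rho E (b + 1))

/-- F6: witnesses go up along cofinal strong maps. -/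
class PresSt : Prop where
  pres : ∀ {E E' : Seq.{u}} {b b' g : Ordinal.{u}} {j : Ordinal.{u} → Ordinal.{u}} {s : Tr.{u}},
    LS E (b + 1) → LS E' (b' + 1) → Cof E b E' b' j → g ≤ b → In (b + 1) s →
    Named E (b + 1) g (Th E (b + 1) s) → Named E' (b' + 1) (j g) (Th E' (b' + 1) (s.map j))

/-- F7: an ultrapower map is close if the measures of the extender are defined over the source. -/
class CloseUltSt : Prop where
  close_ult : ∀ {E E' : Seq.{u}} {b k t : Ordinal.{u}} {i : Ordinal.{u} → Ordinal.{u}},
    IsUlt E b k E' i → Cof E b E' (i b) i → IsNext E (b + 1) k t →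
    (∀ a, In (i k) a → Def1 E (b + 1) t fun n => Nm E' (n.map i) a) →
    Close E (b + 1) E' (i b + 1) i

/-- F7: the measures of an extender on the sequence are defined over the next level. -/
class DefActSt : Prop where
  def_act : ∀ {E : Seq.{u}} {v k t : Ordinal.{u}} {e : Ordinal.{u} → Ordinal.{u}} {a : Tr.{u}},
    LS E (v + 1) → Act E v k t e → In v a → Def1 E (v + 1) t fun n => Nm E (n.map e) a

/-- F9: two sound premice with core maps into the same premouse are equal. -/
class KeySt : Prop where
  key : ∀ {E0 E1 E : Seq.{u}} {b0 b1 b : Ordinal.{u}} {i j : Ordinal.{u} → Ordinal.{u}},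
    CoreMap E0 b0 E b i → CoreMap E1 b1 E b j →
    b0 = b1 ∧ Agree E0 E1 (b0 + 1) ∧ ∀ x ≤ b0, i x = j x

end Pool.Agent.KM
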