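import Pool.Agent.Lib.MP_5c0be7_lc.C.Rank
import Pool.Agent.Lib.MP_5c0be7_lc.C.St

/-!
Project KM, block F6: witnesses go up along cofinal strong maps.
-/

set_option autoImplicit false

namespace Pool.Agent.KM.CU

open Ordinal Tr
open scoped Classical

universe u

variable {E E' : Seq.{u}} {b b' g : Ordinal.{u}} {j : Ordinal.{u} → Ordinal.{u}} {s : Tr.{u}}

/-- The code `c` converges on `x` with a witness below `a`. -/
def Conv (E : Seq.{u}) (b : Ordinal.{u}) (c x : Tr.{u}) (a : Ordinal.{u}) : Prop :=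
  ∃ y, In a y ∧ Cv E b c x y

theorem Conv.mono {c x : Tr.{u}} {a a' : Ordinal.{u}} (h : Conv E b c x a) (ha : a ≤ a') :
    Conv E b c x a' := let ⟨y, h1, h2⟩ := h; ⟨y, h1.mono ha, h2⟩

theorem conv_erase {c x : Tr.{u}} {a : Ordinal.{u}} : Conv E b c.erase x a ↔ Conv E b c x a := by
  simp only [Conv, Cv, body, decC_erase]

theorem RD.conv {f h : Tr.{u} → Tr.{u}} (hf : IsOp f) (hh : IsOp h) :
    RD fun c E b x y => ∃ a, f y = leaf a ∧ Conv E b c (h (node y x)) a :=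
  RD.bex hf ((RD.cv.pre IsOp.id.fst).sub (hh.comp (IsOp.id.fst.snd.pair IsOp.id.snd)))

theorem ev_iff_conv [DiagSt.{u}] (hg : g < rho E b) {c x : Tr.{u}} (hx : In (b + 1) x) :
    (ev E (b + 1) c x).isSome ↔ ∃ a < rho E b, Conv E b c x a := by
  rw [ev_iff_cv hx]
  exact ⟨fun ⟨y, h1, h2⟩ => ⟨_, ht_lt (DiagSt.rho_lim E b) hg h1, y, in_ht y, h2⟩,
    fun ⟨_, h1, y, h2, h3⟩ => ⟨y, h2.mono h1.le, h3⟩⟩

theorem ev_iff_conv' [DiagSt.{u}] (h : Cof E b E' b' j) (hg : g < rho E b) {c x : Tr.{u}}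
    (hx : In (b' + 1) x) :
    (ev E' (b' + 1) c x).isSome ↔ ∃ a < rho E b, Conv E' b' c x (j a) := by
  have hr := rho_le E b
  rw [ev_iff_conv ((lt_rho_map h.toStrong (hg.le.trans hr)).2 hg) hx]
  refine ⟨fun ⟨a, h1, h2⟩ => ?_, fun ⟨a, h1, h2⟩ =>
    ⟨_, (lt_rho_map h.toStrong (h1.le.trans hr)).2 h1, h2⟩⟩
  obtain ⟨x, h3, h4⟩ := h.cof a h1
  exact ⟨x, h3, h2.mono h4⟩

theorem transfer {W : Seq.{u} → Ordinal.{u} → Tr.{u} → Prop} (hW : RD fun _ E b _ y => W E b y)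
    (h : Strong E (b + 1) E' (b' + 1) j) (hs : In (b + 1) s) (hg : g < rho E b)
    {a : Ordinal.{u}} (ha : a < rho E b) {z : Tr.{u}} (hz : In (rho E b) z)
    (H : ∀ q, In g q → (Conv E b q.fst (node q.snd s) a ↔ W E b (node q z))) :
    ∀ q, In (j g) q →
      (Conv E' b' q.fst (node q.snd (s.map j)) (j a) ↔ W E' b' (node q (z.map j))) := by
  intro q hq
  have := ((RD.ball IsOp.id.fst ((RD.eq IsOp.id.fst.fst.fst.erase IsOp.id.fst.snd.snd.snd.fst).imp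
    ((RD.conv IsOp.id.snd.snd.fst (IsOp.id.fst.fst.snd.pair IsOp.id.snd)).iff
      (hW.pre (IsOp.id.fst.pair IsOp.id.snd.snd.snd.snd))))).elem h q.fst.erase hs
    (y := node (leaf g) (node (leaf a) (node q.fst.erase z))) (by simp [hg, ha, hz])).2
  simp only [map_node, map_leaf, map_erase, fst_node, snd_node, leaf.injEq, forall_eq',
    exists_eq_left'] at this
  rw [← conv_erase]
  refine this (fun t ht he => ?_) q hq rfl
  rw [← he, conv_erase]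
  exact H t ht

theorem Named.mono' {d d' k : Ordinal.{u}} {A : Tr.{u} → Prop} (h : Named E d k A) (hd : d ≤ d') :
    Named E d' k A := let ⟨t, h1, h2⟩ := h; ⟨t, h1.mono hd, h2⟩

theorem Named.congr' {d k : Ordinal.{u}} {A B : Tr.{u} → Prop} (h : Named E d k A)
    (e : ∀ q, In k q → (A q ↔ B q)) : Named E d k B :=
  let ⟨t, h1, h2⟩ := h; ⟨t, h1, fun q hq => (h2 q hq).trans (e q hq)⟩

theorem lt_rho_of_named [DiagSt.{u}] (hE : LS E (b + 1)) (hs : In (b + 1) s)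
    (hN : Named E (b + 1) g (Th E (b + 1) s)) (hgb : g ≤ b) : g < rho E b := by
  by_contra h
  refine DiagSt.diag E (b + 1) g s (fun t ht => ?_) hN
  obtain ⟨c, v, h1, h2⟩ := DiagSt.gen_succ E b (hE b (lt_add_one b)) t ht
  have hgb' : g ≤ b + 1 := hgb.trans le_self_add
  exact ((Hl.base hgb' hs (h1.mono (not_lt.1 h))).pair (Hl.base hgb' hs (in_nil _))).app h2

variable [DiagSt.{u}] [AccSt.{u}] [NamedSt.{u}] [RegSt.{u}]

theorem pres (hE : LS E (b + 1)) (hE' : LS E' (b' + 1)) (h : Cof E b E' b' j) (hgb : g ≤ b)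
    (hs : In (b + 1) s) (hN : Named E (b + 1) g (Th E (b + 1) s)) :
    Named E' (b' + 1) (j g) (Th E' (b' + 1) (s.map j)) := by
  have hg := lt_rho_of_named hE hs hN hgb
  have hl := DiagSt.rho_lim E b
  have hr := rho_le E b
  have hr' := rho_le E' b'
  have hg' := (lt_rho_map h.toStrong hgb).2 hg
  have hT : ∀ q, In g q → (Th E (b + 1) s q ↔ ∃ a < rho E b, Conv E b q.fst (node q.snd s) a) :=
    fun q hq => ev_iff_conv hg (by simp [hs, hq.snd.mono (hgb.trans le_self_add)])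
  have hT' : ∀ q, In (j g) q → (Th E' (b' + 1) (s.map j) q ↔
      ∃ a < rho E b, Conv E' b' q.fst (node q.snd (s.map j)) (j a)) := fun q hq =>
    ev_iff_conv' h hg (by
      simp [KE.w_in h.toWeak hs, hq.snd.mono ((hg'.le.trans hr').trans le_self_add)])
  have hm : ∀ {a a'}, a ≤ a' → a' < rho E b → j a ≤ j a' := fun h1 h2 =>
    (KE.w_le h.toWeak (KE.lt1 (h1.trans (h2.le.trans hr))) (KE.lt1 (h2.le.trans hr))).2 h1
  obtain ⟨n0, hn0, h0⟩ := AccSt.room E b g _ (hE.mono le_self_add) hg hN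
  have hn0' := (in_rho_map h.toStrong (hn0.mono (hr.trans le_self_add))).2 hn0
  by_cases hb : ∃ a0 < rho E b, ∀ q, In g q → Th E (b + 1) s q → Conv E b q.fst (node q.snd s) a0
  · obtain ⟨a0, h1, h2⟩ := hb
    have h3 : ∀ a, a0 ≤ a → a < rho E b → ∀ q, In (j g) q →
        (Conv E' b' q.fst (node q.snd (s.map j)) (j a) ↔ Nm E' (n0.map j) q) := fun a k1 k2 q hq =>
      (transfer (W := fun E b y => In b y.snd.fst ∧ Nm E y.snd y.fst)
        (RD.nm IsOp.id.fst.snd IsOp.id.fst.fst) h.toStrong hs hg k2 hn0 (fun q hq =>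
          ⟨fun k => ⟨hn0.fst.mono hr, (h0 q hq).2 ((hT q hq).2 ⟨a, k2, k⟩)⟩,
            fun k => (h2 q hq ((h0 q hq).1 k.2)).mono k1⟩) q hq).trans
        (and_iff_right (hn0'.fst.mono hr'))
    refine ⟨_, hn0'.mono (hr'.trans le_self_add), fun q hq => ?_⟩
    rw [hT' q hq]
    exact ⟨fun k => ⟨a0, h1, (h3 a0 le_rfl h1 q hq).2 k⟩, fun ⟨a, k1, k2⟩ =>
      (h3 _ (le_max_right a a0) (max_lt k1 h1) q hq).1
        (k2.mono (hm (le_max_left _ _) (max_lt k1 h1)))⟩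
  have hu : ∀ a < rho E b, ∃ q y, In g q ∧ In (rho E b) y ∧ ¬ In a y ∧
      Cv E b q.fst (node q.snd s) y := fun a ha => by
    by_contra k
    refine hb ⟨a, ha, fun q hq k1 => ?_⟩
    obtain ⟨a1, k2, y, k3, k4⟩ := (hT q hq).1 k1
    exact ⟨y, by_contra fun k5 => k ⟨q, y, hq, k3.mono k2.le, k5, k4⟩, k4⟩
  obtain ⟨t, ht, hN'⟩ := exists_next (hE.mono le_self_add) hg
  have hgb' : g ≤ b + 1 := hgb.trans le_self_add
  rcases ht.eq_or_lt with rfl | ht
  · refine absurd hN (DiagSt.diag E _ g s (gen_of_unb hE hg hN'.2.2.1 hs fun a ha => ?_))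
    obtain ⟨q, y, k1, k2, k3, k4⟩ := hu a ha
    obtain ⟨e, -, he⟩ := RD.cv.least q.fst
    have hx := (Hl.base (E := E) hgb' hs k1.snd).pair (Hl.par hs)
    refine ⟨y, hx.app (c := e) ?_, k2, k3⟩
    rw [he E b _ hx.mem, least_eq_some]
    exact ⟨⟨k2, k4⟩, fun y' k5 k6 => lt_irrefl' _ (k6.2.unique k4 ▸ k5)⟩
  -- the stage order
  obtain ⟨m, ⟨m0, hm0⟩, hm1⟩ := (((RD.conv.{u} IsOp.id (IsOp.id.snd.fst.fst.pair
    IsOp.id.snd.snd)).idx IsOp.id.fst).and ((RD.conv IsOp.id (IsOp.id.snd.fst.snd.pair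
      IsOp.id.snd.snd)).idx IsOp.id.snd).not).ex
  obtain ⟨o, ho⟩ : IsOp.{u} fun z => node (bop m0 (node z.fst.fst.fst z.fst.snd.fst))
      (node z.fst.fst.snd z.fst.snd.snd) :=
    ((IsOp.id.fst.fst.fst.pair IsOp.id.fst.snd.fst).of m0).pair
      (IsOp.id.fst.fst.snd.pair IsOp.id.fst.snd.snd)
  obtain ⟨n, hn, hR⟩ := AccSt.acc E (b + 1) g t _ hN'.2.2.2 (NamedSt.pre E (b + 1) g g _ o .nil
    (KE.lt1 hgb) (by simp) hN fun q hq => In.bop (by simp [hq]) o)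
  have hR' : ∀ p q, In g p → In g q → (Nm E n (node p q) ↔ ∃ a < rho E b,
      Conv E b p.fst (node p.snd s) a ∧ ¬ Conv E b q.fst (node q.snd s) a) := fun p q hp hq => by
    refine (hR _ (by simp [hp, hq])).trans ?_
    dsimp only
    rw [ho]
    simp only [ThL, fst_node, snd_node]
    rw [hm0, hm1 _ E b _ (by simp [hs, hp.snd.mono hgb', hq.snd.mono hgb'])]
    simp only [fst_node, snd_node]
    constructor
    · rintro ⟨y, k1, ⟨a, rfl, k2⟩, k3⟩
      exact ⟨a, by simpa using k1, k2, fun k => k3 ⟨a, rfl, k⟩⟩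
    · rintro ⟨a, k1, k2, k3⟩
      exact ⟨leaf a, by simpa using k1, ⟨a, rfl, k2⟩, fun ⟨a', k4, k5⟩ => k3 (leaf.inj k4 ▸ k5)⟩
  obtain ⟨W, hW, w1, w2, w3⟩ := rank hE hN' hl ht (hr.trans le_self_add) hn
    (fun q => sInf {a | a = rho E b ∨ Conv E b q.fst (node q.snd s) a}) fun p q hp hq k => by
      obtain ⟨a, k1, k2, k3⟩ := (hR' p q hp hq).1 k
      refine lt_of_le_of_lt (csInf_le' (Or.inr k2)) (not_le.1 fun k4 => ?_)
      rcases csInf_mem (s := {a | a = rho E b ∨ Conv E b q.fst (node q.snd s) a}) ⟨_, Or.inl rfl⟩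
        with k5 | k5
      · exact k1.not_ge (k5 ▸ k4)
      · exact k3 (k5.mono k4)
  -- good pairs
  let V : Seq.{u} → Ordinal.{u} → Tr.{u} → Prop := fun E b y => ∃ k, y.snd.fst = leaf k ∧
    ∃ x, In k x ∧ In b x ∧ Cl E (node x (node y.snd.snd.fst (node y.snd.snd.fst
      (node y.fst y.snd.snd.snd))))
  have hV : RD fun _ E b _ y => V E b y := RD.bex IsOp.id.snd.fst
    (RD.low (IsOp.id.fst.fst.pair (IsOp.id.fst.snd.snd.snd.fst.pair
      (IsOp.id.fst.snd.snd.snd.fst.pair (IsOp.id.fst.snd.fst.pair IsOp.id.fst.snd.snd.snd.snd)))))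
  have hV' : ∀ (E : Seq.{u}) b k q z, k ≤ b → (V E b (node q (node (leaf k) (node W z))) ↔
      ∃ a < k, (ev E a W (node W (node q z))).isSome) := fun E b k q z hk => by
    simp only [V, fst_node, snd_node, leaf.injEq, exists_eq_left', Cl]
    exact ⟨fun ⟨x, k1, _, a, k2, k3⟩ => ⟨a, by simpa [k2] using k1, k3⟩,
      fun ⟨a, k1, k2⟩ => ⟨leaf a, by simpa using k1, by simpa using k1.trans_le hk, a, rfl, k2⟩⟩
  have hz : In (rho E b) (node n (leaf g)) := by simp [hn.mono ht.le, hg]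
  have good : ∀ a < rho E b, ∃ a2 k, a ≤ a2 ∧ a2 < rho E b ∧ k < t ∧ ∀ q, In (j g) q →
      (Conv E' b' q.fst (node q.snd (s.map j)) (j a2) ↔ ∃ a1 < j k,
        (ev E' a1 W (node W (node q ((node n (leaf g)).map j)))).isSome) := fun a ha => by
    obtain ⟨q, y, k1, k2, k3, k4⟩ := hu a ha
    obtain ⟨a2, k5, k6⟩ := (ht_cases y).resolve_left fun k => k3 (in_of_lv k.1 _)
    have k7 := csInf_mem (w1 q k1)
    have k8 : ¬ Conv E b q.fst (node q.snd s) a2 := fun ⟨y', k9, k10⟩ =>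
      lt_irrefl _ (k9 a2 (k10.unique k4 ▸ k5))
    have k9 : ∀ p, In g p → (Nm E n (node p q) ↔ Conv E b p.fst (node p.snd s) a2) := fun p hp => by
      rw [hR' p q hp k1]
      refine ⟨fun ⟨a3, _, m2, m3⟩ => m2.mono (not_lt.1 fun m4 => m3 ⟨y, ?_, k4⟩),
        fun m1 => ⟨a2, k2 a2 k5, m1, k8⟩⟩
      exact ht_le_iff.1 (k6 ▸ Order.add_one_le_iff.2 m4)
    refine ⟨a2, _, not_lt.1 fun m => k3 (ht_le_iff.1 (k6 ▸ Order.add_one_le_iff.2 m)), k2 a2 k5,
      k7.1, fun q' hq' => ?_⟩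
    have k10 := k7.1.trans ht
    refine (transfer hV h.toStrong hs hg (k2 a2 k5)
      (z := node (leaf _) (node W (node n (leaf g))))
      ((in_node _ _ _).2 ⟨(in_leaf _ _).2 k10, (in_node _ _ _).2 ⟨in_of_lv hW _, hz⟩⟩)
      (fun p hp => ?_) q' hq').trans ?_
    · rw [hV' _ _ _ _ _ (k10.le.trans hr), ← k9 p hp]
      refine ⟨w2 _ k7.1 p q k7.2 hp, fun ⟨a1, m1, m2⟩ => by_contra fun m3 => ?_⟩
      refine m1.not_ge (csInf_le' ⟨m1.trans k7.1, w3 _ (m1.trans k7.1) q p m2 k1 fun o ho m4 => ?_⟩)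
      obtain ⟨a3, m5, m6, m7⟩ := (hR' o q ho k1).1 m4
      exact (hR' o p ho hp).2 ⟨a3, m5, m6, fun m8 => m3 ((hR' p q hp k1).2 ⟨a3, m5, m8, m7⟩)⟩
    · rw [map_node, map_node, map_leaf, map_of_lv hW, hV' _ _ _ _ _
        (((lt_rho_map h.toStrong (k10.le.trans hr)).2 k10).le.trans hr')]
  choose! A K g1 g2 g3 g4 using good
  have ht' := (lt_rho_map h.toStrong (ht.le.trans hr)).2 ht
  have s1 : j t ∈ {x | ∀ a < rho E b, j (K a) ≤ x} := fun a ha => hm (g3 a ha).le ht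
  have s2 := csInf_mem (Set.nonempty_of_mem s1)
  have s3 := (csInf_le' s1).trans_lt ht'
  refine Named.congr' (Named.mono' (hV.named hE' .nil hg' (in_nil _)
    (y := node (leaf _) (node W ((node n (leaf g)).map j))) ((in_node _ _ _).2 ⟨(in_leaf _ _).2 s3,
      (in_node _ _ _).2 ⟨in_of_lv hW _, (in_rho_map h.toStrong
        (hz.mono (hr.trans le_self_add))).2 hz⟩⟩)) (hr'.trans le_self_add)) fun q hq => ?_
  rw [hV' _ _ _ _ _ (s3.le.trans hr'), hT' q hq]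
  constructor
  · rintro ⟨a1, k1, k2⟩
    have k3 := notMem_of_lt_csInf' k1
    simp only [Set.mem_ofPred_eq, not_forall, not_le] at k3
    obtain ⟨a, k4, k5⟩ := k3
    exact ⟨_, g2 a k4, (g4 a k4 q hq).2 ⟨a1, k5, k2⟩⟩
  · rintro ⟨a, k1, k2⟩
    obtain ⟨a1, k3, k4⟩ := (g4 a k1 q hq).1 (k2.mono (hm (g1 a k1) (g2 a k1)))
    exact ⟨a1, k3.trans_le (s2 a k1), k4⟩

end Pool.Agent.KM.CU

namespace Pool.Agent.KM

universe u

instance [DiagSt.{u}] [AccSt.{u}] [NamedSt.{u}] [RegSt.{u}] : PresSt.{u} := ⟨CU.pres⟩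

end Pool.Agent.KM
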