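import Pool.Agent.Lib.MP_5c0be7_lc.C.U
import Pool.Agent.Lib.MP_5c0be7_lc.O.Api

/-!
Project KM, block C: ranks of named well-founded relations, successor cardinals, generation.
-/

set_option autoImplicit false

namespace Pool.Agent.KM.CU

open Ordinal Tr
open scoped Classical

universe u

variable {E : Seq.{u}} {b d g : Ordinal.{u}}

theorem add_nat_lt {r a : Ordinal.{u}} (hr : ¬ Suc r) (ha : a < r) (m : ℕ) : a + m < r := by
  induction m with
  | zero => simpa using ha
  | succ m ih => rw [add_succ_cast]; exact not_suc_iff.1 hr _ ih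

theorem ht_lt {r : Ordinal.{u}} (hr : ¬ Suc r) (hg : g < r) {t : Tr.{u}} (h : In r t) : t.ht < r :=
  h.ht_lt (limit_of_not_suc hr (ne_of_gt (lt_of_le_of_lt zero_le hg)))

theorem RD.least {A : PQ.{u}} (h : RD A) (c : Tr.{u}) : ∃ e : Tr.{u}, e.lv = ∅ ∧
    ∀ E b x, In (b + 1) x → ev E (b + 1) e x = least fun y => In (rho E b) y ∧ A c E b x y := by
  obtain ⟨F, ⟨m, -, h1⟩, h2⟩ := h
  refine ⟨ex0 (decD (m c)), lv_ex0 _, fun E b x i => ?_⟩
  rw [ev_ex0 _ i]
  congr 1
  funext y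
  exact propext (and_congr_right fun j => by
    rw [bod_eq, h1, h2 c E b x y i (j.mono (rho_le E b))])

theorem df_cl {s : Tr.{u} → Tr.{u}} (hs : IsOp s) : Df fun E _ z => Cl E (s z) := by
  refine (Df.eq (Fn.op hs).call Fn.nil).not.congr fun E b z i => ?_
  have h := (hs.mem i).fst
  unfold call Cl
  cases h2 : (s z).fst with
  | leaf a =>
    rw [h2, in_leaf] at h
    simp [h, Option.isSome_iff_ne_none]
  | _ => simp

theorem exists_sucn (m : ℕ) : ∃ S : Tr.{u}, S.lv = ∅ ∧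
    ∀ (E : Seq.{u}) a, (ev E a S .nil).isSome ↔ ∃ a0, a = a0 + m := by
  induction m with
  | zero => exact ⟨opc .nil, lv_opc _, fun E a => by simp [ev_opc]⟩
  | succ m ih =>
    obtain ⟨S, h1, h2⟩ := ih
    refine ⟨cmp (.pair .fst (.pair (.const S) .nil)) callc topc, by simp, fun E a => ?_⟩
    rw [ev_cmp]
    by_cases ha : Suc a
    · obtain ⟨a, rfl⟩ := ha
      rw [ev_topc (in_nil _)]
      simp only [Option.bind_some, bop_pair, bop_fst, fst_node, bop_const h1, bop_nil]
      rw [ev_callc (lt_add_one a) _ (in_of_lv h1 _), h2]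
      simp only [add_succ_cast]
      exact exists_congr fun a0 => ⟨fun e => by rw [e], KE.s1inj⟩
    · rw [ev_topc_lim ha]
      simp only [Option.bind_none, Option.isSome_none, Bool.false_eq_true, false_iff]
      rintro ⟨a0, rfl⟩
      exact ha ⟨_, add_succ_cast a0 m⟩

theorem rank_code : ∃ (W : Tr.{u}) (m : ℕ), W.lv = ∅ ∧ ∀ (E : Seq.{u}) a q n g, LS E a →
    ((ev E a W (node W (node q (node n (leaf g))))).isSome ↔ ∃ a0, a = a0 + (m + 1 : ℕ) ∧
      In a0 (node q (node n (leaf g))) ∧ ∀ t, In g t → Nm E n (node t q) →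
        ∃ a1 < a0, (ev E a1 W (node W (node t (node n (leaf g))))).isSome) := by
  have hA : Df.{u} fun E b z => ∀ t, In b t → (∃ g, z.snd.snd.snd = leaf g ∧ In g t) →
      Nm E z.snd.snd.fst (node t z.snd.fst) →
      ∃ t', In b t' ∧ Cl E (node t' (node z.fst (node z.fst (node t z.snd.snd)))) :=
    ((Df.bd Fn.id.snd.snd.snd.snd Fn.id.fst).imp
      ((Df.nm Fn.id.snd.snd.snd.fst (Fn.id.fst.pair Fn.id.snd.snd.fst)).imp
        (df_cl (IsOp.id.fst.pair (IsOp.id.snd.snd.fst.pair (IsOp.id.snd.snd.fst.pair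
          (IsOp.id.snd.fst.pair IsOp.id.snd.snd.snd.snd))))).ex)).all
  obtain ⟨m, c, h1, h2⟩ := hA.semi
  obtain ⟨S, h3, h4⟩ := exists_sucn.{u} (m + 1)
  have h5 : (cmp .snd c (prec .nil S)).lv = ∅ := by simp [h3, erase_eq_self.1 h1]
  refine ⟨_, m, h5, fun E a q n g hE => ?_⟩
  generalize hW : cmp .snd c (prec .nil S) = W at h5 ⊢
  have key : ∀ a0, a = a0 + (m + 1 : ℕ) →
      ((ev E a c (node W (node q (node n (leaf g))))).isSome ↔ In a0 (node q (node n (leaf g))) ∧
        ∀ t, In g t → Nm E n (node t q) →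
          ∃ a1 < a0, (ev E a1 W (node W (node t (node n (leaf g))))).isSome) := by
    rintro a0 rfl
    rw [h2 E a0 _ hE]
    by_cases i : In a0 (node q (node n (leaf g)))
    · have hg : g < a0 := by simpa using i.snd.snd
      rw [if_pos ((in_node _ _ _).2 ⟨in_of_lv h5 _, i⟩)]
      simp only [fst_node, snd_node, leaf.injEq, exists_eq_left', i, true_and]
      split_ifs with h
      · refine iff_of_true rfl fun t ht hn => ?_
        obtain ⟨t', h6, a1, h7, h8⟩ := h t (ht.mono hg.le) ht hn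
        rw [fst_node] at h7
        exact ⟨a1, by simpa [h7] using h6, h8⟩
      · refine iff_of_false (by simp) fun k => h fun t _ ht hn => ?_
        obtain ⟨a1, h6, h7⟩ := k t ht hn
        exact ⟨leaf a1, by simpa using h6, a1, rfl, h7⟩
    · rw [if_neg fun k => i k.snd]; simp [i]
  by_cases i : In a (node W (node q (node n (leaf g))))
  · conv_lhs => rw [← hW, ev_cmp, ev_prec _ _ (hW ▸ i), hW]
    rw [bop_nil]
    cases h6 : ev E a S .nil with
    | none =>
      refine iff_of_false (by simp) fun ⟨a0, h7, _⟩ => ?_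
      have := (h4 E a).2 ⟨a0, h7⟩
      simp [h6] at this
    | some w =>
      obtain ⟨a0, h7⟩ := (h4 E a).1 (by simp [h6])
      simp only [Option.bind_some, bop_snd, snd_node]
      exact ⟨fun k => ⟨a0, h7, (key a0 h7).1 k⟩, fun ⟨a1, h8, k⟩ => (key a1 h8).2 k⟩
  · rw [ev_guard i]
    refine iff_of_false (by simp) fun ⟨a0, h7, h8, _⟩ => i ?_
    exact (in_node _ _ _).2 ⟨in_of_lv h5 _, h8.mono (h7 ▸ le_self_add)⟩

/-- A named well-founded relation on the stratum `g` is ranked by levels below the next cardinal. -/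
theorem rank [AccSt.{u}] [RegSt.{u}] {t r : Ordinal.{u}} {n : Tr.{u}} (hE : LS E d)
    (hN : IsNext E d g t) (hr : ¬ Suc r) (htr : t < r) (hrd : r ≤ d) (hn : In t n)
    (f : Tr.{u} → Ordinal.{u}) (hf : ∀ p q, In g p → In g q → Nm E n (node p q) → f p < f q) :
    ∃ W : Tr.{u}, W.lv = ∅ ∧
      (∀ q, In g q → ∃ a < t, (ev E a W (node W (node q (node n (leaf g))))).isSome) ∧
      (∀ a < t, ∀ p q, (ev E a W (node W (node q (node n (leaf g))))).isSome → In g p →
        Nm E n (node p q) → ∃ a' < a, (ev E a' W (node W (node p (node n (leaf g))))).isSome) ∧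
      ∀ a < t, ∀ p q, (ev E a W (node W (node q (node n (leaf g))))).isSome → In g p →
        (∀ o, In g o → Nm E n (node o p) → Nm E n (node o q)) →
        (ev E a W (node W (node p (node n (leaf g))))).isSome := by
  obtain ⟨W, m, h1, h2⟩ := rank_code.{u}
  have htd := htr.trans_le hrd
  have hl := not_suc_of_limit (AccSt.next_lim E d g t hE hN htd)
  have hls : ∀ a < t, LS E a := fun a ha => hE.mono (ha.trans htd).le
  refine ⟨W, h1, fun q hq => ?_, fun a ha p q h hp hpq => ?_, fun a ha p q h hp ho => ?_⟩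
  · obtain ⟨k, ⟨c, h3, h4⟩, -⟩ := (df_cl.{u} (IsOp.id.fst.pair (IsOp.id.snd.snd.fst.pair
      (IsOp.id.snd.snd.fst.pair (IsOp.id.snd.fst.pair IsOp.id.snd.snd.snd))))).least
    have hk := add_nat_lt hr htr k
    have hp : In t (node W (node n (leaf g))) := by simp [in_of_lv h1, hn, hN.1]
    obtain ⟨a, ha, h5⟩ := RegSt.reg E d g t (node (leaf (t + k)) (node c (node W (node n (leaf g)))))
      hE hN htd ((in_node _ _ _).2 ⟨by simpa using hk.trans_le hrd,
        (in_node _ _ _).2 ⟨in_of_lf h3 _, hp.mono htd.le⟩⟩)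
    generalize hx : f q = x
    induction x using WellFoundedLT.induction generalizing q with
    | ind x ih =>
      have i : In t (node q (node n (leaf g))) := by simp [hq.mono hN.1.le, hn, hN.1]
      have h6 := max_lt ha (ht_lt hl ha i)
      refine ⟨_, add_nat_lt hl h6 (m + 1), (h2 E _ _ _ _ (hls _ (add_nat_lt hl h6 _))).2
        ⟨_, rfl, (in_ht _).mono (le_max_right _ _), fun p hp' hpq => ?_⟩⟩
      obtain ⟨a1, h7, h8⟩ := ih _ (hx ▸ hf p q hp' hq hpq) p hp' rfl
      obtain ⟨y, hy⟩ := exists_isLeast (P := fun y => In t y ∧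
        Cl E (node y (node W (node W (node p (node n (leaf g))))))) ⟨leaf a1, by simpa using h7,
          a1, rfl, h8⟩
      have h9 := h5 p (node .nil y) hp' (by
        simp only [fv, fst_node, snd_node, lab_leaf, if_true]
        rw [h4 E t _ (hE.mono (hk.trans_le hrd).le),
          if_pos ((in_node _ _ _).2 ⟨hp'.mono hN.1.le, hp⟩)]
        simp only [fst_node, snd_node]
        rw [least_eq_some.2 hy]; rfl) (by simp [hy.1.1])
      obtain ⟨a2, h10, h11⟩ := hy.1.2
      rw [fst_node] at h10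
      exact ⟨a2, lt_of_lt_of_le (by simpa [h10] using h9) (le_max_left _ _), h11⟩
  · obtain ⟨a0, rfl, -, h3⟩ := (h2 E a _ _ _ (hls a ha)).1 h
    obtain ⟨a1, h4, h5⟩ := h3 p hp hpq
    exact ⟨a1, h4.trans_le le_self_add, h5⟩
  · obtain ⟨a0, h3, h4, h5⟩ := (h2 E a _ _ _ (hls a ha)).1 h
    have hg : g < a0 := by simpa using h4.snd.snd
    exact (h2 E a _ _ _ (hls a ha)).2 ⟨a0, h3, (in_node _ _ _).2 ⟨hp.mono hg.le, h4.snd⟩,
      fun o h6 h7 => h5 o h6 (ho o h6 h7)⟩

theorem exists_next [AccSt.{u}] (hE : LS E b) (hg : g < rho E b) :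
    ∃ t ≤ rho E b, IsNext E (b + 1) g t := by
  have h0 : rho E b ∈ {t | g < t ∧ NoProj E g t (b + 1)} :=
    ⟨hg, fun a h1 h2 => hg.trans_le (AccSt.card_rho E b hE a h1 h2)⟩
  have h1 := csInf_mem (Set.nonempty_of_mem h0)
  have h2 := csInf_le' h0
  refine ⟨_, h2, h1.1, h2.trans ((rho_le E b).trans le_self_add), fun a ha => ?_, h1.2⟩
  by_cases h3 : g < a
  · by_contra h4
    refine absurd (csInf_le' (show a ∈ {t | g < t ∧ NoProj E g t (b + 1)} from
      ⟨h3, fun c h5 h6 => ?_⟩)) (not_le.2 ha)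
    by_contra h7
    exact h4 ⟨c, h5, not_le.1 fun h8 => h7 (h1.2 c h8 h6), not_lt.1 h7⟩
  · exact ⟨g, not_lt.1 h3, h1.1, rho_le E g⟩

/-- `w` is generated at level `d` from the stratum `g` and `s`. -/
def Hl (E : Seq.{u}) (d g : Ordinal.{u}) (s w : Tr.{u}) : Prop :=
  ∃ c v, In g v ∧ ev E d c (node v s) = some w

namespace Hl

variable {s w w' c : Tr.{u}}

theorem base (hg : g ≤ d) (hs : In d s) (hw : In g w) : Hl E d g s w :=
  ⟨opc .fst, w, hw, ev_opc _ (by simp [hs, hw.mono hg])⟩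

theorem par (hs : In d s) : Hl E d g s s := ⟨opc .snd, .nil, in_nil _, ev_opc _ (by simp [hs])⟩

theorem app (h : Hl E d g s w) (he : ev E d c w = some w') : Hl E d g s w' :=
  let ⟨c1, v, h1, h2⟩ := h; ⟨cmp .fst c c1, v, h1, by rw [ev_cmp, h2]; exact he⟩

theorem mem (h : Hl E d g s w) : In d w := let ⟨_, _, _, h2⟩ := h; ev_in h2

theorem op {f : Tr.{u} → Tr.{u}} (hf : IsOp f) (h : Hl E d g s w) : Hl E d g s (f w) :=
  let ⟨a, ha⟩ := hf; h.app (ha w ▸ ev_opc a h.mem)

theorem pair (h : Hl E d g s w) (h' : Hl E d g s w') : Hl E d g s (node w w') := by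
  obtain ⟨c1, v1, h1, h2⟩ := h
  obtain ⟨c2, v2, h3, h4⟩ := h'
  have i : In d (node (node v1 v2) s) := by
    have i1 := in_of_ev_eq h2
    have i2 := in_of_ev_eq h4
    simp only [in_node] at i1 i2 ⊢
    exact ⟨⟨i1.1, i2.1⟩, i1.2⟩
  exact ⟨pairc (prec (.pair .ff .snd) c1) (prec (.pair .sf .snd) c2), node v1 v2, by simp [h1, h3],
    ev_pairc_some (by rw [ev_prec _ _ i]; exact h2) (by rw [ev_prec _ _ i]; exact h4)⟩

theorem lab (h : Hl E d g s w) {a : Ordinal.{u}} (ha : a ∈ w.lv) : Hl E d g s (leaf a) := by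
  induction w with
  | nil => simp at ha
  | leaf x => rwa [show a = x from ha]
  | node l r ihl ihr => exact ha.elim (ihl (h.op IsOp.id.fst)) (ihr (h.op IsOp.id.snd))

end Hl

/-- An unbounded hull below a projectum without cardinals is everything. -/
theorem gen_of_unb [DiagSt.{u}] {s : Tr.{u}} (hE : LS E (b + 1)) (hg : g < rho E b)
    (hT : TopC E g (rho E b)) (hs : In (b + 1) s)
    (hu : ∀ a < rho E b, ∃ w, Hl E (b + 1) g s w ∧ In (rho E b) w ∧ ¬ In a w) :
    Gen E (b + 1) g s := by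
  have hl := DiagSt.rho_lim E b
  have hr := rho_le E b
  have hgb : g ≤ b + 1 := (hg.le.trans hr).trans le_self_add
  have hu' : ∀ a < rho E b, ∃ a', a ≤ a' ∧ a' < rho E b ∧ Hl E (b + 1) g s (leaf a') := by
    intro a ha
    obtain ⟨w, h1, h2, h3⟩ := hu a ha
    simp only [In, not_forall, not_lt] at h3
    obtain ⟨a', h4, h5⟩ := h3
    exact ⟨a', h5, h2 a' h4, h1.lab h4⟩
  obtain ⟨G0, h1, h2, h3⟩ := hu' _ (not_suc_iff.1 hl g hg)
  have h4 : G0 ∈ {a | g < a ∧ Hl E (b + 1) g s (leaf a)} := ⟨Order.add_one_le_iff.1 h1, h3⟩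
  have h5 := csInf_mem (Set.nonempty_of_mem h4)
  obtain ⟨e, -, he⟩ := ((RD.bd IsOp.id.fst.fst IsOp.id.snd.fst).and
    ((RD.bd IsOp.id.snd.snd IsOp.id.fst.snd).and ((RD.test IsOp.id.fst.snd.isleaf).and
    ((RD.low (IsOp.id.fst.fst.pair ((IsOp.const (erase_of_lv lv_topc)).pair IsOp.nil))).and
    (RD.low (IsOp.id.fst.fst.pair
      ((IsOp.const (erase_of_lv lv_ltr)).pair IsOp.id.fst.snd))).not)))).least (.nil : Tr.{u})
  have key : ∀ w, In (rho E b) w → Hl E (b + 1) g s w := by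
    intro w hw
    obtain ⟨a1, k1, k2, k3⟩ := hu' _ (ht_lt hl hg hw)
    have hx := k3.pair h5.2
    obtain ⟨a, k4, k5, k6⟩ := hT a1 k2
    have k7 := not_suc_iff.1 hl a k5
    have he' := he E b _ hx.mem
    cases k8 : ev E (b + 1) e (node (leaf a1)
        (leaf (sInf {a | g < a ∧ Hl E (b + 1) g s (leaf a)}))) with
    | none =>
      rw [k8] at he'
      refine absurd ?_ (least_eq_none.1 he'.symm (node (leaf (a + 1)) (leaf g)))
      simp only [fst_node, snd_node, in_node, in_leaf, leaf.injEq, exists_eq_left', tv_eq_nil,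
        exists_eq', Cl, ev_ltr_leaf, ev_topc (in_nil _)]
      exact ⟨⟨k7, hg⟩, KE.lt1 k4, h5.1, trivial, ⟨k7.trans_le hr, rfl⟩, fun k => k.2.not_ge k6⟩
    | some y =>
      have hy := hx.app k8
      rw [k8] at he'
      obtain ⟨-, ⟨a', m1, m2⟩, m3, m4, ⟨m5, m6⟩, m7⟩ := (least_eq_some.1 he'.symm).1
      simp only [fst_node] at m1
      simp only [fst_node, snd_node, leaf.injEq, exists_eq_left', tv_eq_nil, Cl, m1, in_leaf]
        at m2 m3 m4 m5 m6 m7
      obtain ⟨r, m4⟩ := m4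
      have m8 : Suc a' := by_contra fun k => by simp [ev_topc_lim k] at m6
      obtain ⟨a0, rfl⟩ := m8
      rw [m4, in_leaf] at m3
      rw [m4, ev_ltr_leaf] at m7
      have m9 : r ≤ g := not_lt.1 fun k =>
        m3.not_ge (csInf_le' ⟨k, m4 ▸ hy.op IsOp.id.snd⟩)
      obtain ⟨c, v, n1, n2⟩ := DiagSt.gen_succ E a0
        (hE a0 (((lt_add_one a0).trans m5).trans (lt_add_one b))) w
        ((in_ht w).mono (k1.trans m2.le))
      refine ((m1 ▸ hy.op IsOp.id.fst).pair (Hl.base hgb hs (w := node c.erase (node v .nil))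
        (by simp [n1.mono ((not_lt.1 fun k => m7 ⟨m5, k⟩).trans m9)]))).app (c := callc) ?_
      rw [ev_callc (m5.trans (lt_add_one b)) _ (in_erase _ _), ev_erase, n2]
  intro t ht
  obtain ⟨c, v, h6, h7⟩ := DiagSt.gen_succ E b (hE b (lt_add_one b)) t ht
  exact ((key v h6).pair (Hl.base hgb hs (in_nil _))).app h7

end Pool.Agent.KM.CU
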